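import Mathlib

/-! Orthogonality of cosines on `[0, 1]`. -/

set_option autoImplicit false

open Set MeasureTheory

namespace Pool.Agent.X153.NE

lemma int_cos (n : ℤ) : ∫ x in (0 : ℝ)..1, Real.cos (n * Real.pi * x) = if n = 0 then 1 else 0 := by
  split_ifs with h
  · subst h; simp
  · have hc : (n : ℝ) * Real.pi ≠ 0 := mul_ne_zero (by exact_mod_cast h) Real.pi_ne_zero
    rw [intervalIntegral.integral_comp_mul_left (fun y => Real.cos y) hc, integral_cos]
    simp [Real.sin_int_mul_pi]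

lemma cosm (i j : ℕ) : ∫ x in (0 : ℝ)..1, Real.cos (i * Real.pi * x) * Real.cos (j * Real.pi * x) =
    if i = j then (if i = 0 then 1 else 1 / 2) else 0 := by
  have e : ∀ x : ℝ, Real.cos (i * Real.pi * x) * Real.cos (j * Real.pi * x) =
      1 / 2 * Real.cos (((i : ℤ) - (j : ℤ) : ℤ) * Real.pi * x) +
      1 / 2 * Real.cos (((i : ℤ) + (j : ℤ) : ℤ) * Real.pi * x) := by
    intro x
    push_cast
    rw [show ((i : ℝ) - j) * Real.pi * x = i * Real.pi * x - j * Real.pi * x by ring,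
      show ((i : ℝ) + j) * Real.pi * x = i * Real.pi * x + j * Real.pi * x by ring,
      Real.cos_sub, Real.cos_add]
    ring
  simp_rw [e]
  rw [intervalIntegral.integral_add, intervalIntegral.integral_const_mul,
    intervalIntegral.integral_const_mul, int_cos, int_cos]
  · by_cases hij : i = j
    · subst hij
      by_cases hi : i = 0
      · subst hi; norm_num
      · have : (i : ℤ) + i ≠ 0 := by omega
        simp [hi, this]
    · have h1 : (i : ℤ) - j ≠ 0 := by omega
      have h2 : (i : ℤ) + j ≠ 0 := by omega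
      simp [hij, h1, h2]
  · apply Continuous.intervalIntegrable; fun_prop
  · apply Continuous.intervalIntegrable; fun_prop

lemma sinm (i j : ℕ) : ∫ x in (0 : ℝ)..1, Real.sin (i * Real.pi * x) * Real.sin (j * Real.pi * x) =
    if i = j then (if i = 0 then 0 else 1 / 2) else 0 := by
  have e : ∀ x : ℝ, Real.sin (i * Real.pi * x) * Real.sin (j * Real.pi * x) =
      1 / 2 * Real.cos (((i : ℤ) - (j : ℤ) : ℤ) * Real.pi * x) -
      1 / 2 * Real.cos (((i : ℤ) + (j : ℤ) : ℤ) * Real.pi * x) := by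
    intro x
    push_cast
    rw [show ((i : ℝ) - j) * Real.pi * x = i * Real.pi * x - j * Real.pi * x by ring,
      show ((i : ℝ) + j) * Real.pi * x = i * Real.pi * x + j * Real.pi * x by ring,
      Real.cos_sub, Real.cos_add]
    ring
  simp_rw [e]
  rw [intervalIntegral.integral_sub, intervalIntegral.integral_const_mul,
    intervalIntegral.integral_const_mul, int_cos, int_cos]
  · by_cases hij : i = j
    · subst hij
      by_cases hi : i = 0
      · subst hi; norm_num
      · have : (i : ℤ) + i ≠ 0 := by omega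
        simp [hi, this]
    · have h1 : (i : ℤ) - j ≠ 0 := by omega
      have h2 : (i : ℤ) + j ≠ 0 := by omega
      simp [hij, h1, h2]
  · apply Continuous.intervalIntegrable; fun_prop
  · apply Continuous.intervalIntegrable; fun_prop

/-- A cosine polynomial. -/
noncomputable def cp {k : ℕ} (a : Fin (k + 1) → ℝ) (x : ℝ) : ℝ :=
  ∑ i, a i * Real.cos ((i : ℕ) * Real.pi * x)

/-- Minus its derivative. -/
noncomputable def sp {k : ℕ} (a : Fin (k + 1) → ℝ) (x : ℝ) : ℝ :=
  ∑ i, a i * ((i : ℕ) * Real.pi) * Real.sin ((i : ℕ) * Real.pi * x)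

lemma bil {k : ℕ} (f : Fin (k + 1) → ℝ → ℝ) (hf : ∀ i, Continuous (f i)) (m : Fin (k + 1) → ℝ)
    (h : ∀ i j, ∫ x in (0 : ℝ)..1, f i x * f j x = if i = j then m i else 0)
    (a : Fin (k + 1) → ℝ) :
    ∫ x in (0 : ℝ)..1, (∑ i, a i * f i x) ^ 2 = ∑ i, a i ^ 2 * m i := by
  have e : ∀ x, (∑ i, a i * f i x) ^ 2 = ∑ i, ∑ j, (a i * a j) * (f i x * f j x) := by
    intro x
    rw [sq, Finset.sum_mul_sum]
    refine Finset.sum_congr rfl fun i _ => Finset.sum_congr rfl fun j _ => ?_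
    ring
  simp_rw [e]
  rw [intervalIntegral.integral_finsetSum]
  · refine Finset.sum_congr rfl fun i _ => ?_
    rw [intervalIntegral.integral_finsetSum]
    · simp_rw [intervalIntegral.integral_const_mul, h]
      simp only [mul_ite, mul_zero, Finset.sum_ite_eq, Finset.mem_univ, if_true]
      ring
    · intro j _
      apply Continuous.intervalIntegrable
      have := hf i; have := hf j; fun_prop
  · intro i _
    apply Continuous.intervalIntegrable
    have := hf i
    fun_prop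

lemma cp_sq {k : ℕ} (a : Fin (k + 1) → ℝ) :
    ∫ x in (0 : ℝ)..1, cp a x ^ 2 = ∑ i, a i ^ 2 * (if (i : ℕ) = 0 then 1 else 1 / 2) := by
  unfold cp
  refine bil (fun i x => Real.cos ((i : ℕ) * Real.pi * x)) (fun i => by fun_prop) _ ?_ a
  intro i j
  rw [cosm]
  simp only [Fin.val_inj]

lemma sp_sq {k : ℕ} (a : Fin (k + 1) → ℝ) :
    ∫ x in (0 : ℝ)..1, sp a x ^ 2 =
      ∑ i, (a i * ((i : ℕ) * Real.pi)) ^ 2 * (if (i : ℕ) = 0 then 0 else 1 / 2) := by
  unfold sp
  refine bil (fun i x => Real.sin ((i : ℕ) * Real.pi * x)) (fun i => by fun_prop) _ ?_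
    (fun i => a i * ((i : ℕ) * Real.pi))
  intro i j
  rw [sinm]
  simp only [Fin.val_inj]

lemma sp_le {k : ℕ} (a : Fin (k + 1) → ℝ) :
    ∫ x in (0 : ℝ)..1, sp a x ^ 2 ≤ (k * Real.pi) ^ 2 * ∫ x in (0 : ℝ)..1, cp a x ^ 2 := by
  rw [cp_sq, sp_sq, Finset.mul_sum]
  refine Finset.sum_le_sum fun i _ => ?_
  have hi : ((i : ℕ) : ℝ) ≤ k := by exact_mod_cast Nat.lt_succ_iff.1 i.2
  have hpi := Real.pi_pos
  split_ifs with h
  · rw [mul_zero]; positivity
  · have h1 : ((i : ℕ) * Real.pi) ^ 2 ≤ (k * Real.pi) ^ 2 := by gcongr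
    nlinarith [mul_le_mul_of_nonneg_left h1 (sq_nonneg (a i))]

lemma cp_indep {k : ℕ} (a : Fin (k + 1) → ℝ) (h : ∀ x ∈ Ioo (0 : ℝ) 1, cp a x = 0) : a = 0 := by
  have h1 : ∫ x in (0 : ℝ)..1, cp a x ^ 2 = 0 := by
    rw [intervalIntegral.integral_of_le zero_le_one, integral_Ioc_eq_integral_Ioo,
      setIntegral_congr_fun measurableSet_Ioo (g := fun _ => (0 : ℝ))]
    · simp
    · intro x hx
      simp only [h x hx]; norm_num
  rw [cp_sq] at h1
  have h2 : ∀ i ∈ Finset.univ, 0 ≤ a i ^ 2 * (if (i : ℕ) = 0 then (1 : ℝ) else 1 / 2) := by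
    intro i _
    split_ifs <;> positivity
  rw [Finset.sum_eq_zero_iff_of_nonneg h2] at h1
  ext i
  have h3 := h1 i (Finset.mem_univ _)
  have h4 : (0 : ℝ) < (if (i : ℕ) = 0 then (1 : ℝ) else 1 / 2) := by split_ifs <;> norm_num
  have h5 : a i ^ 2 = 0 := by
    rcases mul_eq_zero.1 h3 with h | h
    · exact h
    · exact absurd h h4.ne'
  simpa using h5

lemma cp_cont {k : ℕ} (a : Fin (k + 1) → ℝ) : Continuous (cp a) := by
  unfold cp; fun_prop

lemma sp_cont {k : ℕ} (a : Fin (k + 1) → ℝ) : Continuous (sp a) := by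
  unfold sp; fun_prop

lemma cp_deriv {k : ℕ} (a : Fin (k + 1) → ℝ) (x : ℝ) : HasDerivAt (cp a) (-sp a x) x := by
  unfold cp sp
  rw [← Finset.sum_neg_distrib]
  refine HasDerivAt.fun_sum fun i _ => ?_
  have h1 : HasDerivAt (fun x : ℝ => ((i : ℕ) : ℝ) * Real.pi * x) (((i : ℕ) : ℝ) * Real.pi) x := by
    simpa using (hasDerivAt_id x).const_mul (((i : ℕ) : ℝ) * Real.pi)
  exact ((h1.cos).const_mul (a i)).congr_deriv (by ring)

end Pool.Agent.X153.NE
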