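import Pool.Agent.X153.NE.Poin
import Pool.Agent.X153.NE.Trig

/-! Neumann eigenvalues of the horns. -/

set_option autoImplicit false

open Set MeasureTheory Topology
open scoped ENNReal

namespace Pool.Agent.X153.NE

/-- `C¹` functions in `H¹`. -/
def IsSobolev (Ω : Set (ℝ × ℝ)) (u : ℝ × ℝ → ℝ) : Prop :=
  ContDiffOn ℝ 1 u Ω ∧ IntegrableOn (fun p => u p ^ 2) Ω ∧ IntegrableOn (gradSq u) Ω

/-- `v` is a basis of a `(k + 1)`-dimensional space of such functions. -/
def IsTrial (k : ℕ) (Ω : Set (ℝ × ℝ)) (v : Fin (k + 1) → ℝ × ℝ → ℝ) : Prop :=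
  (∀ i, IsSobolev Ω (v i)) ∧
    ∀ c : Fin (k + 1) → ℝ, (∀ p ∈ Ω, ∑ i, c i * v i p = 0) → c = 0

/-- The set whose infimum is the eigenvalue. -/
def rset (k : ℕ) (Ω : Set (ℝ × ℝ)) : Set ℝ :=
  {t | ∃ v, IsTrial k Ω v ∧ ∀ c : Fin (k + 1) → ℝ,
    ∫ p in Ω, gradSq (fun q => ∑ i, c i * v i q) p ≤ t * ∫ p in Ω, (∑ i, c i * v i p) ^ 2}

lemma memLp_of {Ω : Set (ℝ × ℝ)} (ho : IsOpen Ω) {f : ℝ × ℝ → ℝ} (hc : ContinuousOn f Ω)
    (hi : IntegrableOn (fun p => f p ^ 2) Ω) : MemLp f 2 (volume.restrict Ω) :=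
  (memLp_two_iff_integrable_sq (hc.aestronglyMeasurable ho.measurableSet)).2 hi

lemma sob_parts {Ω : Set (ℝ × ℝ)} (ho : IsOpen Ω) {u : ℝ × ℝ → ℝ} (h : IsSobolev Ω u) :
    MemLp u 2 (volume.restrict Ω) ∧ MemLp (fun p => fderiv ℝ u p (1, 0)) 2 (volume.restrict Ω) ∧
      MemLp (fun p => fderiv ℝ u p (0, 1)) 2 (volume.restrict Ω) := by
  obtain ⟨h1, h2, h3⟩ := h
  have hf := h1.continuousOn_fderiv_of_isOpen ho le_rfl
  have c1 : ContinuousOn (fun p => fderiv ℝ u p (1, 0)) Ω := hf.clm_apply continuousOn_const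
  have c2 : ContinuousOn (fun p => fderiv ℝ u p (0, 1)) Ω := hf.clm_apply continuousOn_const
  refine ⟨memLp_of ho h1.continuousOn h2, memLp_of ho c1 ?_, memLp_of ho c2 ?_⟩
  · refine Integrable.mono' h3 ((c1.pow 2).aestronglyMeasurable ho.measurableSet) ?_
    filter_upwards with p
    rw [Real.norm_of_nonneg (sq_nonneg _)]
    unfold gradSq
    have := sq_nonneg (fderiv ℝ u p (0, 1))
    linarith
  · refine Integrable.mono' h3 ((c2.pow 2).aestronglyMeasurable ho.measurableSet) ?_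
    filter_upwards with p
    rw [Real.norm_of_nonneg (sq_nonneg _)]
    unfold gradSq
    have := sq_nonneg (fderiv ℝ u p (1, 0))
    linarith

lemma sob_comb {Ω : Set (ℝ × ℝ)} (ho : IsOpen Ω) {k : ℕ} {v : Fin (k + 1) → ℝ × ℝ → ℝ}
    (hv : ∀ i, IsSobolev Ω (v i)) (c : Fin (k + 1) → ℝ) :
    IsSobolev Ω (fun q => ∑ i, c i * v i q) := by
  have hcd : ContDiffOn ℝ 1 (fun q => ∑ i, c i * v i q) Ω :=
    ContDiffOn.sum fun i _ => contDiffOn_const.mul (hv i).1
  have hfd : ∀ w : ℝ × ℝ, ∀ p ∈ Ω, fderiv ℝ (fun q => ∑ i, c i * v i q) p w =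
      ∑ i, c i * fderiv ℝ (v i) p w := by
    intro w p hp
    have hd : ∀ i, DifferentiableAt ℝ (v i) p := fun i =>
      ((hv i).1.differentiableOn (by norm_num)).differentiableAt (ho.mem_nhds hp)
    rw [fderiv_fun_sum (fun i _ => (hd i).const_mul (c i))]
    simp only [_root_.sum_apply]
    refine Finset.sum_congr rfl fun i _ => ?_
    rw [fderiv_const_mul (hd i)]
    simp
  have m0 : MemLp (fun q => ∑ i, c i * v i q) 2 (volume.restrict Ω) :=
    memLp_finsetSum _ fun i _ => (sob_parts ho (hv i)).1.const_mul (c i)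
  have m1 : ∀ w : ℝ × ℝ, (∀ i, MemLp (fun p => fderiv ℝ (v i) p w) 2 (volume.restrict Ω)) →
      MemLp (fun p => fderiv ℝ (fun q => ∑ i, c i * v i q) p w) 2 (volume.restrict Ω) := by
    intro w hw
    have : MemLp (fun p => ∑ i, c i * fderiv ℝ (v i) p w) 2 (volume.restrict Ω) :=
      memLp_finsetSum _ fun i _ => (hw i).const_mul (c i)
    refine this.ae_eq ?_
    filter_upwards [ae_restrict_mem ho.measurableSet] with p hp
    exact (hfd w p hp).symm
  refine ⟨hcd, m0.integrable_sq, ?_⟩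
  have a1 := (m1 (1, 0) fun i => (sob_parts ho (hv i)).2.1).integrable_sq
  have a2 := (m1 (0, 1) fun i => (sob_parts ho (hv i)).2.2).integrable_sq
  exact a1.add a2

lemma pos_int {Ω : Set (ℝ × ℝ)} (ho : IsOpen Ω) {u : ℝ × ℝ → ℝ} (h : IsSobolev Ω u)
    (hne : ¬ ∀ p ∈ Ω, u p = 0) : 0 < ∫ p in Ω, u p ^ 2 := by
  push Not at hne
  obtain ⟨p, hp, hup⟩ := hne
  rw [setIntegral_pos_iff_support_of_nonneg_ae (by filter_upwards with q; positivity) h.2.1]
  have hsup : Function.support (fun q => u q ^ 2) ∩ Ω = Ω ∩ u ⁻¹' {0}ᶜ := by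
    ext q
    simp only [mem_inter_iff, Function.mem_support, mem_preimage, mem_compl_iff,
      mem_singleton_iff]
    constructor
    · rintro ⟨h1, h2⟩
      exact ⟨h2, fun h3 => h1 (by rw [h3]; norm_num)⟩
    · rintro ⟨h1, h2⟩
      exact ⟨pow_ne_zero 2 h2, h1⟩
  rw [hsup]
  have hop : IsOpen (Ω ∩ u ⁻¹' {0}ᶜ) := h.1.continuousOn.isOpen_inter_preimage ho isOpen_compl_singleton
  exact hop.measure_pos volume ⟨p, hp, hup⟩

lemma gradSq_nonneg (u : ℝ × ℝ → ℝ) (p : ℝ × ℝ) : 0 ≤ gradSq u p := by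
  unfold gradSq; positivity

lemma rset_nonneg {Ω : Set (ℝ × ℝ)} (ho : IsOpen Ω) {k : ℕ} {t : ℝ} (ht : t ∈ rset k Ω) : 0 ≤ t := by
  obtain ⟨v, hv, h⟩ := ht
  set c : Fin (k + 1) → ℝ := Pi.single 0 1 with hc
  have hc0 : c ≠ 0 := by
    intro h0
    have := congrFun h0 0
    simp [hc] at this
  have hne : ¬ ∀ p ∈ Ω, (fun q => ∑ i, c i * v i q) p = 0 := fun hh => hc0 (hv.2 c hh)
  have h1 := pos_int ho (sob_comb ho hv.1 c) hne
  have h2 := h c
  have h3 : 0 ≤ ∫ p in Ω, gradSq (fun q => ∑ i, c i * v i q) p :=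
    integral_nonneg fun p => gradSq_nonneg _ p
  by_contra hn
  push Not at hn
  have := mul_neg_of_neg_of_pos hn h1
  linarith

lemma exists_ker {k : ℕ} (hk : 1 ≤ k) (m : Fin (k + 1) → ℝ) :
    ∃ c : Fin (k + 1) → ℝ, c ≠ 0 ∧ ∑ i, c i * m i = 0 := by
  have h01 : (0 : Fin (k + 1)) ≠ 1 := by
    intro h
    have := congrArg Fin.val h
    rw [Fin.val_zero, Fin.val_one'] at this
    rw [Nat.mod_eq_of_lt (by omega)] at this
    omega
  by_cases h0 : m 0 = 0
  · refine ⟨Pi.single 0 1, ?_, ?_⟩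
    · intro h
      have := congrFun h 0
      simp at this
    · rw [Finset.sum_eq_single 0]
      · rw [h0, mul_zero]
      · intro i _ hi; simp [hi]
      · simp
  · refine ⟨Pi.single 0 (m 1) - Pi.single 1 (m 0), ?_, ?_⟩
    · intro h
      have := congrFun h 1
      simp only [Pi.sub_apply, Pi.single_eq_same, Pi.zero_apply, Pi.single_eq_of_ne h01.symm,
        zero_sub, neg_eq_zero] at this
      exact h0 this
    · simp only [Pi.sub_apply, sub_mul, Finset.sum_sub_distrib]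
      rw [Finset.sum_eq_single 0, Finset.sum_eq_single 1]
      · simp only [Pi.single_eq_same]; ring
      · intro i _ hi; simp [hi]
      · simp
      · intro i _ hi; simp [hi]
      · simp

lemma horn_fin {K c : ℝ} (hK : 0 ≤ K) (hc : 0 < c) : volume (horn K c) ≠ ∞ :=
  (horn_bounded hK hc).measure_lt_top.ne

/-- The lower bound for the eigenvalues of the horn. -/
lemma lower {K c : ℝ} (hK : 1 < K) (hc : 0 < c) (hKc : K * c ≤ 1 / 2) {k : ℕ} (hk : 1 ≤ k) {t : ℝ}
    (ht : t ∈ rset k (horn K c)) : K ^ 2 / 30 ≤ t := by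
  obtain ⟨v, hv, h⟩ := ht
  have ho := horn_open K c
  have : IsFiniteMeasure (volume.restrict (horn K c)) :=
    ⟨by rw [Measure.restrict_apply_univ]; exact (horn_bounded (by linarith) hc).measure_lt_top⟩
  obtain ⟨a, ha0, ha⟩ := exists_ker hk (fun i => ∫ p in horn K c, v i p)
  set u : ℝ × ℝ → ℝ := fun q => ∑ i, a i * v i q with hu
  have hS : IsSobolev (horn K c) u := sob_comb ho hv.1 a
  have hint : ∀ i, Integrable (v i) (volume.restrict (horn K c)) := fun i =>
    (sob_parts ho (hv.1 i)).1.integrable (by norm_num)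
  have hu1 : IntegrableOn u (horn K c) := (sob_parts ho hS).1.integrable (by norm_num)
  have hu0 : ∫ p in horn K c, u p = 0 := by
    rw [hu, integral_finsetSum _ fun i _ => (hint i).const_mul (a i)]
    simp_rw [integral_const_mul]
    exact ha
  have hne : ¬ ∀ p ∈ horn K c, u p = 0 := fun hh => ha0 (hv.2 a hh)
  have hpos := pos_int ho hS hne
  have hP := poincare' hK hc hKc hS.1 hS.2.1 hu1 (horn_fin (by linarith) hc) hu0
  rw [← ofReal_integral_eq_lintegral_ofReal hS.2.1 (by filter_upwards with p; positivity),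
    ← ofReal_integral_eq_lintegral_ofReal hS.2.2 (by filter_upwards with p; exact gradSq_nonneg u p),
    ← ENNReal.ofReal_mul (by positivity)] at hP
  have hG0 : 0 ≤ ∫ p in horn K c, gradSq u p := integral_nonneg fun p => gradSq_nonneg u p
  rw [ENNReal.ofReal_le_ofReal_iff (by positivity)] at hP
  have h2 := h a
  have hK2 : 0 < K ^ 2 := by positivity
  set X := ∫ p in horn K c, u p ^ 2
  set Y := ∫ p in horn K c, gradSq u p
  have h3 : Y ≤ t * X := h2
  have h4 : X * K ^ 2 ≤ 30 * Y := by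
    have : 30 / K ^ 2 * Y = 30 * Y / K ^ 2 := by ring
    rw [this, le_div_iff₀ hK2] at hP
    exact hP
  have h5 : X * K ^ 2 ≤ X * (30 * t) := by nlinarith
  have h6 := le_of_mul_le_mul_left h5 hpos
  linarith

/-- The trial functions. -/
noncomputable def tv (k : ℕ) (i : Fin (k + 1)) (p : ℝ × ℝ) : ℝ :=
  Real.cos ((i : ℕ) * Real.pi * p.1)

lemma tv_comb {k : ℕ} (a : Fin (k + 1) → ℝ) (p : ℝ × ℝ) : ∑ i, a i * tv k i p = cp a p.1 := rfl

lemma gradSq_cp {k : ℕ} (a : Fin (k + 1) → ℝ) (p : ℝ × ℝ) :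
    gradSq (fun q => cp a q.1) p = sp a p.1 ^ 2 := by
  have h1 : HasFDerivAt (fun q : ℝ × ℝ => cp a q.1)
      ((-sp a p.1) • ContinuousLinearMap.fst ℝ ℝ ℝ) p :=
    (cp_deriv a p.1).comp_hasFDerivAt p hasFDerivAt_fst
  unfold gradSq
  rw [h1.fderiv]
  simp

lemma tv_sob {K c : ℝ} (hK : 0 ≤ K) (hc : 0 < c) (k : ℕ) (i : Fin (k + 1)) :
    IsSobolev (horn K c) (tv k i) := by
  have hb := horn_bounded hK hc
  have key : ∀ g : ℝ × ℝ → ℝ, Continuous g → IntegrableOn g (horn K c) := by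
    intro g hg
    have hcomp : IsCompact (closure (horn K c)) := hb.isCompact_closure
    exact (hg.continuousOn.integrableOn_compact hcomp).mono_set subset_closure
  have hcd : ContDiff ℝ 1 (tv k i) := by unfold tv; fun_prop
  refine ⟨hcd.contDiffOn, key _ ?_, key _ ?_⟩
  · exact hcd.continuous.pow 2
  · have := hcd.continuous_fderiv (by norm_num)
    unfold gradSq
    fun_prop

lemma upper {K c : ℝ} (hK : 0 ≤ K) (hc : 0 < c) (k : ℕ) :
    (k * Real.pi) ^ 2 * Real.exp K ∈ rset k (horn K c) := by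
  refine ⟨tv k, ⟨tv_sob hK hc k, ?_⟩, ?_⟩
  · intro a ha
    apply cp_indep a
    intro x hx
    have := ha (x, 0) ⟨hx.1, hx.2, by simp only [abs_zero]; positivity⟩
    exact this
  · intro a
    have ho := horn_open K c
    have hS := sob_comb ho (tv_sob hK hc k) a
    have e0 : (fun q => ∑ i, a i * tv k i q) = fun q => cp a q.1 := rfl
    rw [e0] at hS ⊢
    have hcp := cp_cont a
    have hsp := sp_cont a
    have hn1 : 0 ≤ ∫ p in horn K c, (cp a p.1) ^ 2 := integral_nonneg fun p => sq_nonneg _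
    have hkp : (0 : ℝ) ≤ (k * Real.pi) ^ 2 * Real.exp K := by positivity
    change _ ≤ (k * Real.pi) ^ 2 * Real.exp K * ∫ p in horn K c, (cp a p.1) ^ 2
    rw [← ENNReal.ofReal_le_ofReal_iff (mul_nonneg hkp hn1), ENNReal.ofReal_mul hkp,
      ofReal_integral_eq_lintegral_ofReal hS.2.1 (by filter_upwards with p; positivity),
      ofReal_integral_eq_lintegral_ofReal hS.2.2
        (by filter_upwards with p; exact gradSq_nonneg _ p)]
    simp_rw [gradSq_cp]
    have fub : ∀ g : ℝ → ℝ, Continuous g → (∀ x, 0 ≤ g x) →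
        ∫⁻ p in horn K c, ENNReal.ofReal (g p.1) =
        ∫⁻ x in Ioo (0 : ℝ) 1, ENNReal.ofReal 2 * ENNReal.ofReal (hw K c x * g x) := by
      intro g hg hg0
      rw [fubini (F := fun p : ℝ × ℝ => ENNReal.ofReal (g p.1)) hc (meas_ind2 ho.measurableSet
        (Continuous.continuousOn (ENNReal.continuous_ofReal.comp (hg.comp continuous_fst))))]
      apply setLIntegral_congr_fun measurableSet_Ioo
      intro x hx
      simp only
      rw [setLIntegral_const, Real.volume_Ioo, ENNReal.ofReal_mul (hw_pos hc x).le, mul_comm]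
      norm_num
    rw [fub (fun x => sp a x ^ 2) (hsp.pow 2) (fun x => sq_nonneg _),
      fub (fun x => cp a x ^ 2) (hcp.pow 2) (fun x => sq_nonneg _)]
    have conv : ∀ g : ℝ → ℝ, Continuous g → (∀ x, 0 ≤ g x) →
        ∫⁻ x in Ioo (0 : ℝ) 1, ENNReal.ofReal (g x) = ENNReal.ofReal (∫ x in (0 : ℝ)..1, g x) := by
      intro g hg hg0
      rw [intervalIntegral.integral_of_le zero_le_one, integral_Ioc_eq_integral_Ioo,
        ofReal_integral_eq_lintegral_ofReal]
      · exact (hg.continuousOn.integrableOn_compact isCompact_Icc).mono_set Ioo_subset_Icc_self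
      · filter_upwards with x; exact hg0 x
    have b1 : ∫⁻ x in Ioo (0 : ℝ) 1, ENNReal.ofReal 2 * ENNReal.ofReal (hw K c x * sp a x ^ 2) ≤
        ENNReal.ofReal (2 * c * ∫ x in (0 : ℝ)..1, sp a x ^ 2) := by
      rw [ENNReal.ofReal_mul (by positivity), ← conv (fun x => sp a x ^ 2) (hsp.pow 2) (fun x => sq_nonneg _),
        ← lintegral_const_mul' _ _ ENNReal.ofReal_ne_top]
      apply setLIntegral_mono' measurableSet_Ioo
      intro x hx
      rw [← ENNReal.ofReal_mul (by positivity), ← ENNReal.ofReal_mul (by positivity)]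
      apply ENNReal.ofReal_le_ofReal
      have := hw_le hK hc hx.1.le
      nlinarith [mul_le_mul_of_nonneg_right this (sq_nonneg (sp a x))]
    have b2 : ENNReal.ofReal (2 * (c * Real.exp (-K)) * ∫ x in (0 : ℝ)..1, cp a x ^ 2) ≤
        ∫⁻ x in Ioo (0 : ℝ) 1, ENNReal.ofReal 2 * ENNReal.ofReal (hw K c x * cp a x ^ 2) := by
      rw [ENNReal.ofReal_mul (by positivity), ← conv (fun x => cp a x ^ 2) (hcp.pow 2) (fun x => sq_nonneg _),
        ← lintegral_const_mul' _ _ ENNReal.ofReal_ne_top]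
      apply setLIntegral_mono' measurableSet_Ioo
      intro x hx
      rw [← ENNReal.ofReal_mul (by positivity), ← ENNReal.ofReal_mul (by positivity)]
      apply ENNReal.ofReal_le_ofReal
      have h1 : c * Real.exp (-K) ≤ hw K c x := by
        unfold hw
        apply mul_le_mul_of_nonneg_left _ hc.le
        apply Real.exp_le_exp.2
        nlinarith [hx.1, hx.2]
      nlinarith [mul_le_mul_of_nonneg_right h1 (sq_nonneg (cp a x))]
    refine b1.trans (le_trans ?_ (mul_le_mul' le_rfl b2))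
    rw [← ENNReal.ofReal_mul hkp]
    apply ENNReal.ofReal_le_ofReal
    have h1 := sp_le a
    have h2 : Real.exp K * Real.exp (-K) = 1 := by rw [← Real.exp_add]; simp
    have e1 : (k * Real.pi) ^ 2 * Real.exp K * (2 * (c * Real.exp (-K)) *
        ∫ x in (0 : ℝ)..1, cp a x ^ 2) = 2 * c * ((k * Real.pi) ^ 2 *
        ∫ x in (0 : ℝ)..1, cp a x ^ 2) * (Real.exp K * Real.exp (-K)) := by ring
    rw [e1, h2, mul_one]
    exact mul_le_mul_of_nonneg_left h1 (by positivity)

end Pool.Agent.X153.NE
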