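import Mathlib

/-! Lipschitz domains in the plane: the horns `0 < x < 1, |y| < c exp (-K x)`. -/

set_option autoImplicit false

open Set Topology

namespace Pool.Agent.X153.NE

/-- The horn `0 < x < 1`, `|y| < c exp (-K x)`. -/
def horn (K c : ℝ) : Set (ℝ × ℝ) :=
  {p | 0 < p.1 ∧ p.1 < 1 ∧ |p.2| < c * Real.exp (-(K * p.1))}

/-- Locally the set above the graph of a Lipschitz function in some orthonormal frame. -/
def LipAt (Ω : Set (ℝ × ℝ)) (p : ℝ × ℝ) : Prop :=
  ∃ e₁ e₂ : ℝ, e₁ ^ 2 + e₂ ^ 2 = 1 ∧ ∃ U ∈ 𝓝 p, ∃ φ : ℝ → ℝ, (∃ L, LipschitzWith L φ) ∧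
    ∀ ξ η : ℝ, (ξ * e₂ + η * e₁, -(ξ * e₁) + η * e₂) ∈ U →
      ((ξ * e₂ + η * e₁, -(ξ * e₁) + η * e₂) ∈ Ω ↔ φ ξ < η)

/-- A Lipschitz function increasing at a positive rate in the direction `e`: its positivity set is
an epigraph. -/
lemma epi {G : ℝ × ℝ → ℝ} {e₁ e₂ C r : ℝ} (he : e₁ ^ 2 + e₂ ^ 2 = 1) (hC : 0 ≤ C) (hr : 0 < r)
    (hL : ∀ a b a' b' : ℝ, |G (a, b) - G (a', b')| ≤ C * (|a - a'| + |b - b'|))
    (hG : ∀ a b t : ℝ, 0 ≤ t → G (a, b) + r * t ≤ G (a + t * e₁, b + t * e₂)) :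
    ∃ φ : ℝ → ℝ, (∃ L, LipschitzWith L φ) ∧
    ∀ ξ η : ℝ, (0 < G (ξ * e₂ + η * e₁, -(ξ * e₁) + η * e₂) ↔ φ ξ < η) := by
  have h1 : |e₁| ≤ 1 := by
    rw [abs_le]; constructor <;> nlinarith [sq_nonneg e₂]
  have h2 : |e₂| ≤ 1 := by
    rw [abs_le]; constructor <;> nlinarith [sq_nonneg e₁]
  set g : ℝ → ℝ → ℝ := fun ξ η => G (ξ * e₂ + η * e₁, -(ξ * e₁) + η * e₂) with hg
  have hmono : ∀ ξ η t, 0 ≤ t → g ξ η + r * t ≤ g ξ (η + t) := by
    intro ξ η t ht
    have := hG (ξ * e₂ + η * e₁) (-(ξ * e₁) + η * e₂) t ht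
    simp only [hg]
    have e1 : ξ * e₂ + (η + t) * e₁ = ξ * e₂ + η * e₁ + t * e₁ := by ring
    have e2 : -(ξ * e₁) + (η + t) * e₂ = -(ξ * e₁) + η * e₂ + t * e₂ := by ring
    rw [e1, e2]; exact this
  have hlipη : ∀ ξ η η', |g ξ η - g ξ η'| ≤ C * 2 * |η - η'| := by
    intro ξ η η'
    refine (hL _ _ _ _).trans ?_
    have e1 : ξ * e₂ + η * e₁ - (ξ * e₂ + η' * e₁) = (η - η') * e₁ := by ring
    have e2 : -(ξ * e₁) + η * e₂ - (-(ξ * e₁) + η' * e₂) = (η - η') * e₂ := by ring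
    rw [e1, e2, abs_mul, abs_mul]
    have : |η - η'| * |e₁| + |η - η'| * |e₂| ≤ 2 * |η - η'| := by
      nlinarith [abs_nonneg (η - η')]
    nlinarith
  have hlipξ : ∀ ξ ξ' η, |g ξ η - g ξ' η| ≤ C * 2 * |ξ - ξ'| := by
    intro ξ ξ' η
    refine (hL _ _ _ _).trans ?_
    have e1 : ξ * e₂ + η * e₁ - (ξ' * e₂ + η * e₁) = (ξ - ξ') * e₂ := by ring
    have e2 : -(ξ * e₁) + η * e₂ - (-(ξ' * e₁) + η * e₂) = -((ξ - ξ') * e₁) := by ring
    rw [e1, e2, abs_neg, abs_mul, abs_mul]
    have : |ξ - ξ'| * |e₂| + |ξ - ξ'| * |e₁| ≤ 2 * |ξ - ξ'| := by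
      nlinarith [abs_nonneg (ξ - ξ')]
    nlinarith
  have hcont : ∀ ξ, Continuous (g ξ) := by
    intro ξ
    have : LipschitzWith (Real.toNNReal (C * 2)) (g ξ) := by
      refine LipschitzWith.of_dist_le_mul fun a b => ?_
      rw [Real.dist_eq, Real.dist_eq, Real.coe_toNNReal _ (by positivity)]
      exact hlipη ξ a b
    exact this.continuous
  have hex : ∀ ξ, ∃ η, g ξ η = 0 := by
    intro ξ
    set T := |g ξ 0| / r with hT
    have hTp : 0 ≤ T := by positivity
    have hrT : r * T = |g ξ 0| := by rw [hT]; field_simp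
    have a1 : 0 ≤ g ξ T := by
      have := hmono ξ 0 T hTp
      rw [zero_add] at this
      have h3 := neg_abs_le (g ξ 0)
      linarith
    have a2 : g ξ (-T) ≤ 0 := by
      have := hmono ξ (-T) T hTp
      rw [neg_add_cancel] at this
      have h3 := le_abs_self (g ξ 0)
      linarith
    have := intermediate_value_Icc (a := -T) (b := T) (by linarith) (hcont ξ).continuousOn
    obtain ⟨η, -, hη⟩ := this ⟨a2, a1⟩
    exact ⟨η, hη⟩
  choose φ hφ using hex
  have hiff : ∀ ξ η, 0 < g ξ η ↔ φ ξ < η := by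
    intro ξ η
    constructor
    · intro h
      by_contra hn
      push Not at hn
      have := hmono ξ η (φ ξ - η) (by linarith)
      rw [add_sub_cancel, hφ] at this
      nlinarith
    · intro h
      have := hmono ξ (φ ξ) (η - φ ξ) (by linarith)
      rw [add_sub_cancel, hφ] at this
      nlinarith
  refine ⟨φ, ⟨Real.toNNReal (C * 2 / r), ?_⟩, hiff⟩
  have key : ∀ ξ ξ', φ ξ' ≤ φ ξ + C * 2 / r * |ξ - ξ'| := by
    intro ξ ξ'
    by_contra hn
    push Not at hn
    set D := C * 2 / r * |ξ - ξ'| with hD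
    have hDp : 0 ≤ D := by positivity
    have hrD : r * D = C * 2 * |ξ - ξ'| := by rw [hD]; field_simp
    have h3 := hmono ξ' (φ ξ) D hDp
    have h4 := hlipξ ξ ξ' (φ ξ)
    rw [hφ ξ, zero_sub, abs_neg] at h4
    have h5 := neg_abs_le (g ξ' (φ ξ))
    have h6 : 0 ≤ g ξ' (φ ξ + D) := by linarith
    have h7 := hmono ξ' (φ ξ + D) (φ ξ' - (φ ξ + D)) (by linarith)
    rw [add_sub_cancel, hφ] at h7
    nlinarith
  refine LipschitzWith.of_dist_le_mul fun a b => ?_
  rw [Real.dist_eq, Real.dist_eq, Real.coe_toNNReal _ (by positivity), abs_le]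
  have k1 := key a b
  have k2 := key b a
  rw [abs_sub_comm b a] at k2
  constructor <;> linarith

lemma lipAt_of {Ω : Set (ℝ × ℝ)} {p : ℝ × ℝ} {G : ℝ × ℝ → ℝ} {e₁ e₂ C r : ℝ}
    (he : e₁ ^ 2 + e₂ ^ 2 = 1) (hC : 0 ≤ C) (hr : 0 < r)
    (hL : ∀ a b a' b' : ℝ, |G (a, b) - G (a', b')| ≤ C * (|a - a'| + |b - b'|))
    (hG : ∀ a b t : ℝ, 0 ≤ t → G (a, b) + r * t ≤ G (a + t * e₁, b + t * e₂))
    {U : Set (ℝ × ℝ)} (hU : U ∈ 𝓝 p) (hΩ : ∀ q ∈ U, (q ∈ Ω ↔ 0 < G q)) : LipAt Ω p := by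
  obtain ⟨φ, h1, h2⟩ := epi he hC hr hL hG
  refine ⟨e₁, e₂, he, U, hU, φ, h1, fun ξ η h => ?_⟩
  rw [hΩ _ h, h2]

/-- The profile, extended to a Lipschitz function on the line. -/
noncomputable def prof (K c x : ℝ) : ℝ := c * Real.exp (-(K * max x 0))

lemma prof_pos {K c : ℝ} (hc : 0 < c) (x : ℝ) : 0 < prof K c x := by
  unfold prof; positivity

lemma prof_lip {K c : ℝ} (hK : 0 ≤ K) (hc : 0 < c) (hKc : K * c ≤ 1 / 2) (a b : ℝ) :
    |prof K c a - prof K c b| ≤ 1 / 2 * |a - b| := by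
  have key : ∀ a b : ℝ, a ≤ b → |prof K c a - prof K c b| ≤ 1 / 2 * |a - b| := by
    intro a b hab
    have hm : max a 0 ≤ max b 0 := max_le_max hab le_rfl
    have hm2 : max b 0 - max a 0 ≤ b - a := by
      rcases le_total b 0 with h | h
      · rw [max_eq_right h]
        have := le_max_right a 0
        linarith
      · rw [max_eq_left h]
        have := le_max_left a 0
        linarith
    have ha0 : 0 ≤ max a 0 := le_max_right _ _
    set A := max a 0
    set B := max b 0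
    have h1 : Real.exp (-(K * B)) = Real.exp (-(K * A)) * Real.exp (-(K * (B - A))) := by
      rw [← Real.exp_add]; congr 1; ring
    have h2 : 1 - K * (B - A) ≤ Real.exp (-(K * (B - A))) := by
      have := Real.add_one_le_exp (-(K * (B - A)))
      linarith
    have h3 : Real.exp (-(K * A)) ≤ 1 := by
      rw [Real.exp_le_one_iff]; have := mul_nonneg hK ha0; linarith
    have h4 : 0 < Real.exp (-(K * A)) := Real.exp_pos _
    have h5 : Real.exp (-(K * (B - A))) ≤ 1 := by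
      rw [Real.exp_le_one_iff]; have := mul_nonneg hK (sub_nonneg.2 hm); linarith
    have h6 : 0 ≤ K * (B - A) := mul_nonneg hK (sub_nonneg.2 hm)
    have e : prof K c a - prof K c b = c * (Real.exp (-(K * A)) * (1 - Real.exp (-(K * (B - A))))) := by
      unfold prof
      change c * Real.exp (-(K * A)) - c * Real.exp (-(K * B)) = _
      rw [h1]; ring
    have h7 : Real.exp (-(K * A)) * (1 - Real.exp (-(K * (B - A)))) ≤ K * (B - A) := by
      nlinarith
    have h8 : 0 ≤ Real.exp (-(K * A)) * (1 - Real.exp (-(K * (B - A)))) := by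
      apply mul_nonneg h4.le; linarith
    rw [e, abs_of_nonneg (by positivity), abs_sub_comm, abs_of_nonneg (by linarith)]
    calc c * (Real.exp (-(K * A)) * (1 - Real.exp (-(K * (B - A))))) ≤ c * (K * (B - A)) := by
          gcongr
      _ = K * c * (B - A) := by ring
      _ ≤ 1 / 2 * (B - A) := by
          apply mul_le_mul_of_nonneg_right hKc; linarith
      _ ≤ 1 / 2 * (b - a) := by linarith
  rcases le_total a b with h | h
  · exact key a b h
  · rw [abs_sub_comm, abs_sub_comm a b]; exact key b a h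

lemma prof_cont {K c : ℝ} : Continuous (prof K c) := by
  unfold prof; fun_prop

lemma mem_horn_iff {K c : ℝ} (q : ℝ × ℝ) :
    q ∈ horn K c ↔ 0 < q.1 ∧ q.1 < 1 ∧ q.2 < prof K c q.1 ∧ -q.2 < prof K c q.1 := by
  unfold horn prof
  simp only [mem_setOf_eq]
  constructor
  · rintro ⟨h1, h2, h3⟩
    rw [max_eq_left h1.le]
    rw [abs_lt] at h3
    exact ⟨h1, h2, h3.2, by linarith [h3.1]⟩
  · rintro ⟨h1, h2, h3, h4⟩
    rw [max_eq_left h1.le] at h3 h4
    refine ⟨h1, h2, ?_⟩
    rw [abs_lt]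
    exact ⟨by linarith, h3⟩

lemma horn_open (K c : ℝ) : IsOpen (horn K c) := by
  have : horn K c = {q | 0 < q.1} ∩ ({q | q.1 < 1} ∩ ({q | q.2 < prof K c q.1} ∩
      {q | -q.2 < prof K c q.1})) := by
    ext q
    rw [mem_horn_iff]; rfl
  rw [this]
  have h := prof_cont (K := K) (c := c)
  refine (isOpen_lt (by fun_prop) (by fun_prop)).inter ((isOpen_lt (by fun_prop) (by fun_prop)).inter
    ((isOpen_lt (by fun_prop) (by fun_prop)).inter (isOpen_lt (by fun_prop) (by fun_prop))))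

/-- The local models. `a`, `b` in `{-1, 0, 1}` say which sides are active. -/
lemma model {K c : ℝ} (hK : 0 ≤ K) (hc : 0 < c) (hKc : K * c ≤ 1 / 2) {p : ℝ × ℝ}
    {Ω : Set (ℝ × ℝ)}
    {a b : ℝ} (ha : a = 0 ∨ a ^ 2 = 1) (hb : b = 0 ∨ b ^ 2 = 1) (hab : a ≠ 0 ∨ b ≠ 0)
    {U : Set (ℝ × ℝ)} (hU : U ∈ 𝓝 p)
    (hΩ : ∀ q ∈ U, (q ∈ Ω ↔ (a ≠ 0 → 0 < (1 - a) / 2 + a * q.1) ∧
      (b ≠ 0 → 0 < prof K c q.1 + b * q.2))) : LipAt Ω p := by
  have hA : |a| ≤ 1 := by
    rcases ha with h | h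
    · rw [h]; simp
    · rw [← sq_le_one_iff_abs_le_one]; exact h.le
  have hB : |b| ≤ 1 := by
    rcases hb with h | h
    · rw [h]; simp
    · rw [← sq_le_one_iff_abs_le_one]; exact h.le
  have hN : 1 ≤ a ^ 2 + b ^ 2 := by
    rcases ha with h | h
    · rcases hb with h' | h'
      · rcases hab with h'' | h''
        · exact absurd h h''
        · exact absurd h' h''
      · rw [h']; nlinarith [sq_nonneg a]
    · rw [h]; nlinarith [sq_nonneg b]
  set N := Real.sqrt (a ^ 2 + b ^ 2) with hNdef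
  have hNsq : N ^ 2 = a ^ 2 + b ^ 2 := Real.sq_sqrt (by linarith)
  have hNpos : 0 < N := Real.sqrt_pos.2 (by linarith)
  have he : (a / N) ^ 2 + (b / N) ^ 2 = 1 := by
    rw [div_pow, div_pow, hNsq, ← add_div, div_self (by linarith)]
  have hXL : ∀ q q' : ℝ, |((1 - a) / 2 + a * q) - ((1 - a) / 2 + a * q')| ≤ 1 * |q - q'| := by
    intro q q'
    have : ((1 - a) / 2 + a * q) - ((1 - a) / 2 + a * q') = a * (q - q') := by ring
    rw [this, abs_mul]
    gcongr
  have hYL : ∀ x y x' y' : ℝ, |(prof K c x + b * y) - (prof K c x' + b * y')| ≤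
      1 * (|x - x'| + |y - y'|) := by
    intro x y x' y'
    have : (prof K c x + b * y) - (prof K c x' + b * y') = (prof K c x - prof K c x') + b * (y - y') := by
      ring
    rw [this]
    refine (abs_add_le _ _).trans ?_
    rw [abs_mul]
    have h1 := prof_lip hK hc hKc x x'
    have h2 : |b| * |y - y'| ≤ 1 * |y - y'| := by gcongr
    have h3 := abs_nonneg (x - x')
    linarith
  have hXr : a ^ 2 = 1 → ∀ x t : ℝ, 0 ≤ t →
      ((1 - a) / 2 + a * x) + (1 / (2 * N)) * t ≤ ((1 - a) / 2 + a * (x + t * (a / N))) := by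
    intro h x t ht
    have : ((1 - a) / 2 + a * (x + t * (a / N))) = ((1 - a) / 2 + a * x) + t * (a ^ 2 / N) := by ring
    rw [this, h]
    have : 1 / (2 * N) * t ≤ t * (1 / N) := by
      have : 1 / (2 * N) = 1 / 2 * (1 / N) := by field_simp
      rw [this]
      have : 0 ≤ t * (1 / N) := by positivity
      linarith
    linarith
  have hYr : b ^ 2 = 1 → ∀ x y t : ℝ, 0 ≤ t →
      (prof K c x + b * y) + (1 / (2 * N)) * t ≤
        (prof K c (x + t * (a / N)) + b * (y + t * (b / N))) := by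
    intro h x y t ht
    have e1 : b * (y + t * (b / N)) = b * y + t * (b ^ 2 / N) := by ring
    rw [e1, h]
    have h1 := prof_lip hK hc hKc (x + t * (a / N)) x
    have e2 : x + t * (a / N) - x = t * (a / N) := by ring
    rw [e2, abs_mul, abs_of_nonneg ht, abs_div, abs_of_pos hNpos] at h1
    have h2 := neg_abs_le (prof K c (x + t * (a / N)) - prof K c x)
    have h3 : t * (|a| / N) ≤ t * (1 / N) := by gcongr
    have e3 : 1 / (2 * N) = 1 / 2 * (1 / N) := by field_simp
    rw [e3]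
    linarith
  have hr : 0 < 1 / (2 * N) := by positivity
  rcases ha with h | h
  · rcases hb with h' | h'
    · rcases hab with h'' | h''
      · exact absurd h h''
      · exact absurd h' h''
    · have hb0 : b ≠ 0 := by rintro rfl; norm_num at h'
      refine lipAt_of (G := fun q => prof K c q.1 + b * q.2) he zero_le_one hr
        (fun x y x' y' => hYL x y x' y') (fun x y t ht => hYr h' x y t ht) hU ?_
      intro q hq
      rw [hΩ q hq]
      simp [h, hb0]
  · have ha0 : a ≠ 0 := by rintro rfl; norm_num at h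
    rcases hb with h' | h'
    · refine lipAt_of (G := fun q => (1 - a) / 2 + a * q.1) he zero_le_one hr
        (fun x y x' y' => (hXL x x').trans ?_) (fun x y t ht => hXr h x t ht) hU ?_
      · have := abs_nonneg (y - y'); linarith
      · intro q hq
        rw [hΩ q hq]
        simp [h', ha0]
    · have hb0 : b ≠ 0 := by rintro rfl; norm_num at h'
      refine lipAt_of (G := fun q => min ((1 - a) / 2 + a * q.1) (prof K c q.1 + b * q.2)) he
        zero_le_one hr ?_ ?_ hU ?_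
      · intro x y x' y'
        refine (abs_min_sub_min_le_max _ _ _ _).trans (max_le ?_ (hYL x y x' y'))
        refine (hXL x x').trans ?_
        have := abs_nonneg (y - y'); linarith
      · intro x y t ht
        refine le_min ?_ ?_
        · exact (add_le_add (min_le_left _ _) le_rfl).trans (hXr h x t ht)
        · exact (add_le_add (min_le_right _ _) le_rfl).trans (hYr h' x y t ht)
      · intro q hq
        rw [hΩ q hq, lt_min_iff]
        simp [ha0, hb0]

lemma horn_lip {K c : ℝ} (hK : 0 ≤ K) (hc : 0 < c) (hKc : K * c ≤ 1 / 2) (p : ℝ × ℝ)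
    (hp : p ∈ frontier (horn K c)) : LipAt (horn K c) p := by
  have hcl : p ∈ closure (horn K c) := frontier_subset_closure hp
  have hno : p ∉ horn K c := by
    rw [frontier, (horn_open K c).interior_eq] at hp
    exact hp.2
  have hpc := prof_cont (K := K) (c := c)
  have hcl' : p ∈ {q : ℝ × ℝ | 0 ≤ q.1} ∩ ({q | q.1 ≤ 1} ∩ ({q | q.2 ≤ prof K c q.1} ∩
      {q | -q.2 ≤ prof K c q.1})) := by
    refine closure_minimal ?_ ?_ hcl
    · intro q hq
      rw [mem_horn_iff] at hq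
      exact ⟨hq.1.le, hq.2.1.le, hq.2.2.1.le, hq.2.2.2.le⟩
    · refine (isClosed_le (by fun_prop) (by fun_prop)).inter
        ((isClosed_le (by fun_prop) (by fun_prop)).inter
        ((isClosed_le (by fun_prop) (by fun_prop)).inter (isClosed_le (by fun_prop) (by fun_prop))))
  obtain ⟨c1, c2, c3, c4⟩ := hcl'
  simp only [mem_setOf_eq] at c1 c2 c3 c4
  have hpp := prof_pos (K := K) hc p.1
  -- choose the active sides
  obtain ⟨a, ha, ha1, ha2, ha3⟩ : ∃ a : ℝ, (a = 0 ∨ a ^ 2 = 1) ∧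
      (a = 0 → 0 < p.1 ∧ p.1 < 1) ∧ (a ≠ 0 → (1 - a) / 2 + a * p.1 = 0) ∧
      (a ≠ 0 → a = 1 ∨ a = -1) := by
    rcases eq_or_lt_of_le c1 with h | h
    · exact ⟨1, Or.inr (by norm_num), by norm_num, fun _ => by rw [← h]; norm_num, fun _ => Or.inl rfl⟩
    · rcases eq_or_lt_of_le c2 with h' | h'
      · exact ⟨-1, Or.inr (by norm_num), by norm_num, fun _ => by rw [h']; norm_num,
          fun _ => Or.inr rfl⟩
      · exact ⟨0, Or.inl rfl, fun _ => ⟨h, h'⟩, by simp, by simp⟩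
  obtain ⟨b, hb, hb1, hb2, hb3⟩ : ∃ b : ℝ, (b = 0 ∨ b ^ 2 = 1) ∧
      (b = 0 → p.2 < prof K c p.1 ∧ -p.2 < prof K c p.1) ∧ (b ≠ 0 → prof K c p.1 + b * p.2 = 0) ∧
      (b ≠ 0 → b = 1 ∨ b = -1) := by
    rcases eq_or_lt_of_le c3 with h | h
    · exact ⟨-1, Or.inr (by norm_num), by norm_num, fun _ => by rw [h]; ring, fun _ => Or.inr rfl⟩
    · rcases eq_or_lt_of_le c4 with h' | h'
      · exact ⟨1, Or.inr (by norm_num), by norm_num, fun _ => by rw [← h']; ring,
          fun _ => Or.inl rfl⟩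
      · exact ⟨0, Or.inl rfl, fun _ => ⟨h, h'⟩, by simp, by simp⟩
  have hab : a ≠ 0 ∨ b ≠ 0 := by
    by_contra hn
    push Not at hn
    exact hno ((mem_horn_iff p).2 ⟨(ha1 hn.1).1, (ha1 hn.1).2, (hb1 hn.2).1, (hb1 hn.2).2⟩)
  -- the neighbourhood where the inactive sides are strict
  set U : Set (ℝ × ℝ) := {q | (a ≠ 1 → 0 < q.1)} ∩ ({q | (a ≠ -1 → q.1 < 1)} ∩
    ({q | (b ≠ -1 → q.2 < prof K c q.1)} ∩ {q | (b ≠ 1 → -q.2 < prof K c q.1)})) with hUdef
  have o1 : ∀ (P : Prop) (f g : ℝ × ℝ → ℝ), Continuous f → Continuous g → (P → f p < g p) →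
      {q : ℝ × ℝ | (P → f q < g q)} ∈ 𝓝 p := by
    intro P f g hf hg h
    by_cases hP : P
    · have : {q : ℝ × ℝ | (P → f q < g q)} = {q | f q < g q} := by ext q; simp [hP]
      rw [this]
      exact (isOpen_lt hf hg).mem_nhds (h hP)
    · have : {q : ℝ × ℝ | (P → f q < g q)} = univ := by ext q; simp [hP]
      rw [this]; exact Filter.univ_mem
  have hU : U ∈ 𝓝 p := by
    refine Filter.inter_mem (o1 _ _ _ (by fun_prop) (by fun_prop) ?_) (Filter.inter_mem
      (o1 _ _ _ (by fun_prop) (by fun_prop) ?_) (Filter.inter_mem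
      (o1 _ _ _ (by fun_prop) (by fun_prop) ?_) (o1 _ _ _ (by fun_prop) (by fun_prop) ?_)))
    · intro h
      by_cases h0 : a = 0
      · exact (ha1 h0).1
      · rcases ha3 h0 with h1 | h1
        · exact absurd h1 h
        · have := ha2 h0; rw [h1] at this; linarith
    · intro h
      by_cases h0 : a = 0
      · exact (ha1 h0).2
      · rcases ha3 h0 with h1 | h1
        · have := ha2 h0; rw [h1] at this; linarith
        · exact absurd h1 h
    · intro h
      by_cases h0 : b = 0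
      · exact (hb1 h0).1
      · rcases hb3 h0 with h1 | h1
        · have := hb2 h0; rw [h1] at this; linarith
        · exact absurd h1 h
    · intro h
      by_cases h0 : b = 0
      · exact (hb1 h0).2
      · rcases hb3 h0 with h1 | h1
        · exact absurd h1 h
        · have := hb2 h0; rw [h1] at this; linarith
  refine model hK hc hKc ha hb hab hU ?_
  intro q hq
  obtain ⟨q1, q2, q3, q4⟩ := hq
  simp only [mem_setOf_eq] at q1 q2 q3 q4
  rw [mem_horn_iff]
  constructor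
  · rintro ⟨h1, h2, h3, h4⟩
    constructor
    · intro h0
      rcases ha3 h0 with h | h <;> rw [h] <;> linarith
    · intro h0
      rcases hb3 h0 with h | h <;> rw [h] <;> linarith
  · rintro ⟨h1, h2⟩
    refine ⟨?_, ?_, ?_, ?_⟩
    · by_cases h : a = 1
      · have := h1 (by rw [h]; norm_num); rw [h] at this; linarith
      · exact q1 h
    · by_cases h : a = -1
      · have := h1 (by rw [h]; norm_num); rw [h] at this; linarith
      · exact q2 h
    · by_cases h : b = -1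
      · have := h2 (by rw [h]; norm_num); rw [h] at this; linarith
      · exact q3 h
    · by_cases h : b = 1
      · have := h2 (by rw [h]; norm_num); rw [h] at this; linarith
      · exact q4 h

lemma horn_connected {K c : ℝ} (hc : 0 < c) : IsConnected (horn K c) := by
  have : horn K c = (fun q : ℝ × ℝ => (q.1, c * Real.exp (-(K * q.1)) * q.2)) ''
      (Ioo (0 : ℝ) 1 ×ˢ Ioo (-1 : ℝ) 1) := by
    ext q
    constructor
    · rintro ⟨h1, h2, h3⟩
      have hp : 0 < c * Real.exp (-(K * q.1)) := by positivity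
      refine ⟨(q.1, q.2 / (c * Real.exp (-(K * q.1)))), ⟨⟨h1, h2⟩, ?_⟩, ?_⟩
      · rw [abs_lt] at h3
        constructor
        · simp only; rw [lt_div_iff₀ hp]; linarith [h3.1]
        · simp only; rw [div_lt_iff₀ hp]; linarith [h3.2]
      · ext
        · rfl
        · simp only
          field_simp
    · rintro ⟨⟨x, s⟩, ⟨⟨h1, h2⟩, h3, h4⟩, rfl⟩
      simp only at h1 h2 h3 h4
      refine ⟨h1, h2, ?_⟩
      have hp : 0 < c * Real.exp (-(K * x)) := by positivity
      simp only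
      rw [abs_mul, abs_of_pos hp]
      have : |s| < 1 := abs_lt.2 ⟨h3, h4⟩
      nlinarith
  rw [this]
  refine IsConnected.image ?_ _ (by fun_prop)
  exact (isConnected_Ioo zero_lt_one).prod (isConnected_Ioo (by norm_num))

lemma horn_bounded {K c : ℝ} (hK : 0 ≤ K) (hc : 0 < c) : Bornology.IsBounded (horn K c) := by
  refine (Metric.isBounded_Icc ((0 : ℝ), -c) ((1 : ℝ), c)).subset ?_
  rintro ⟨x, y⟩ ⟨h1, h2, h3⟩
  simp only at h1 h2 h3
  have : Real.exp (-(K * x)) ≤ 1 := by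
    rw [Real.exp_le_one_iff]; have := mul_nonneg hK h1.le; linarith
  have h4 : |y| < c := by nlinarith
  rw [abs_lt] at h4
  exact ⟨⟨h1.le, h4.1.le⟩, ⟨h2.le, h4.2.le⟩⟩

end Pool.Agent.X153.NE
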