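import Mathlib

/-! One dimensional weighted inequalities. -/

set_option autoImplicit false

open Set MeasureTheory
open scoped ENNReal

namespace Pool.Agent.X153.NE

/-- Cauchy-Schwarz for the fundamental theorem of calculus. -/
lemma cs {f f' w : ℝ → ℝ} {a b : ℝ} (hab : a ≤ b) (hd : ∀ t ∈ Icc a b, HasDerivAt f (f' t) t)
    (hc : ContinuousOn f' (Icc a b)) (hw : ContinuousOn w (Icc a b)) (hwp : ∀ t ∈ Icc a b, 0 < w t) :
    (f b - f a) ^ 2 ≤ (∫ t in a..b, (w t)⁻¹) * ∫ t in a..b, f' t ^ 2 * w t := by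
  rcases eq_or_lt_of_le hab with h | hlt
  · subst h; simp
  have hwi : ContinuousOn (fun t => (w t)⁻¹) (Icc a b) := hw.inv₀ fun t ht => (hwp t ht).ne'
  have i1 : IntervalIntegrable f' volume a b := by
    apply ContinuousOn.intervalIntegrable; rwa [uIcc_of_le hab]
  have i2 : IntervalIntegrable (fun t => (w t)⁻¹) volume a b := by
    apply ContinuousOn.intervalIntegrable; rwa [uIcc_of_le hab]
  have i3 : IntervalIntegrable (fun t => f' t ^ 2 * w t) volume a b := by
    apply ContinuousOn.intervalIntegrable; rw [uIcc_of_le hab]; exact (hc.pow 2).mul hw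
  have e0 : ∫ t in a..b, f' t = f b - f a := by
    apply intervalIntegral.integral_eq_sub_of_hasDerivAt _ i1
    rw [uIcc_of_le hab]; exact hd
  set I := f b - f a
  set W := ∫ t in a..b, (w t)⁻¹ with hW
  set J := ∫ t in a..b, f' t ^ 2 * w t with hJ
  have hWpos : 0 < W := by
    apply intervalIntegral.intervalIntegral_pos_of_pos_on i2 _ hlt
    intro t ht
    exact inv_pos.2 (hwp t (Ioo_subset_Icc_self ht))
  have key : 0 ≤ ∫ t in a..b, (f' t ^ 2 * w t - 2 * (I / W) * f' t + (I / W) ^ 2 * (w t)⁻¹) := by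
    apply intervalIntegral.integral_nonneg hab
    intro t ht
    have hp := hwp t ht
    have : f' t ^ 2 * w t - 2 * (I / W) * f' t + (I / W) ^ 2 * (w t)⁻¹ =
        w t * (f' t - (I / W) * (w t)⁻¹) ^ 2 := by
      field_simp; ring
    rw [this]; positivity
  rw [intervalIntegral.integral_add (i3.sub (i1.const_mul _)) (i2.const_mul _),
    intervalIntegral.integral_sub i3 (i1.const_mul _), intervalIntegral.integral_const_mul,
    intervalIntegral.integral_const_mul, e0, ← hW, ← hJ] at key
  have : J - 2 * (I / W) * I + (I / W) ^ 2 * W = J - I ^ 2 / W := by field_simp; ring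
  rw [this] at key
  have h2 : I ^ 2 / W ≤ J := by linarith
  rw [div_le_iff₀ hWpos] at h2
  linarith [mul_comm J W]

/-- The same, with a lower Lebesgue integral. -/
lemma cs' {f f' w : ℝ → ℝ} {a b W : ℝ} (hab : a ≤ b) (hd : ∀ t ∈ Icc a b, HasDerivAt f (f' t) t)
    (hc : ContinuousOn f' (Icc a b)) (hw : ContinuousOn w (Icc a b)) (hwp : ∀ t ∈ Icc a b, 0 < w t)
    (hW : ∫ t in a..b, (w t)⁻¹ ≤ W) :
    ENNReal.ofReal ((f b - f a) ^ 2) ≤
      ENNReal.ofReal W * ∫⁻ t in Ioc a b, ENNReal.ofReal (f' t ^ 2 * w t) := by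
  have i3 : IntervalIntegrable (fun t => f' t ^ 2 * w t) volume a b := by
    apply ContinuousOn.intervalIntegrable; rw [uIcc_of_le hab]; exact (hc.pow 2).mul hw
  have hJ0 : 0 ≤ ∫ t in a..b, f' t ^ 2 * w t := by
    apply intervalIntegral.integral_nonneg hab
    intro t ht
    exact mul_nonneg (sq_nonneg _) (hwp t ht).le
  have hW0 : 0 ≤ W := by
    refine le_trans ?_ hW
    apply intervalIntegral.integral_nonneg hab
    intro t ht
    exact inv_nonneg.2 (hwp t ht).le
  have e : ∫⁻ t in Ioc a b, ENNReal.ofReal (f' t ^ 2 * w t) =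
      ENNReal.ofReal (∫ t in a..b, f' t ^ 2 * w t) := by
    rw [intervalIntegral.integral_of_le hab, ofReal_integral_eq_lintegral_ofReal]
    · exact (intervalIntegrable_iff_integrableOn_Ioc_of_le hab).1 i3
    · filter_upwards [ae_restrict_mem measurableSet_Ioc] with t ht
      exact mul_nonneg (sq_nonneg _) (hwp t (Ioc_subset_Icc_self ht)).le
  rw [e, ← ENNReal.ofReal_mul hW0]
  apply ENNReal.ofReal_le_ofReal
  exact (cs hab hd hc hw hwp).trans (mul_le_mul_of_nonneg_right hW hJ0)

lemma meas_ind {g : ℝ → ℝ≥0∞} {s : Set ℝ} (hs : MeasurableSet s) (hg : ContinuousOn g s) :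
    Measurable (s.indicator g) := by
  classical
  rw [← piecewise_eq_indicator]
  exact hg.measurable_piecewise continuousOn_const hs

/-- The part to the right of the anchor `x₀`. -/
lemma right {f f' : ℝ → ℝ} {K x₀ : ℝ} (hK : 0 < K) (h0 : 0 < x₀)
    (hd : ∀ t ∈ Ioo (0 : ℝ) 1, HasDerivAt f (f' t) t) (hc : ContinuousOn f' (Ioo 0 1)) :
    ∫⁻ x in Ioo x₀ 1, ENNReal.ofReal (Real.exp (-(K * x)) * (f x - f x₀) ^ 2) ≤
      ENNReal.ofReal (4 / K ^ 2) *
        ∫⁻ t in Ioo 0 1, ENNReal.ofReal (Real.exp (-(K * t)) * f' t ^ 2) := by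
  set Φ : ℝ → ℝ≥0∞ := (Ioo (0 : ℝ) 1).indicator
    (fun t => ENNReal.ofReal (f' t ^ 2 * Real.exp (-(K * t / 2)))) with hΦ
  have hΦm : Measurable Φ := by
    apply meas_ind measurableSet_Ioo
    apply ENNReal.continuous_ofReal.comp_continuousOn
    exact (hc.pow 2).mul (by fun_prop)
  set S : Set (ℝ × ℝ) := {q | x₀ < q.2 ∧ q.2 ≤ q.1} with hS
  have hSm : MeasurableSet S := by
    apply MeasurableSet.inter
    · exact measurableSet_lt measurable_const measurable_snd
    · exact measurableSet_le measurable_snd measurable_fst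
  set F : ℝ → ℝ → ℝ≥0∞ := fun x t => ENNReal.ofReal (2 / K * Real.exp (-(K * x / 2))) *
    (S.indicator (fun _ => (1 : ℝ≥0∞)) (x, t) * Φ t) with hF
  have hFm : Measurable (Function.uncurry F) := by
    apply Measurable.mul
    · fun_prop
    · apply Measurable.mul
      · exact measurable_const.indicator hSm
      · exact hΦm.comp measurable_snd
  have step1 : ∀ x ∈ Ioo x₀ 1, ENNReal.ofReal (Real.exp (-(K * x)) * (f x - f x₀) ^ 2) ≤
      ∫⁻ t, F x t := by
    intro x hx
    have hsub : Icc x₀ x ⊆ Ioo (0 : ℝ) 1 := fun t ht => ⟨h0.trans_le ht.1, ht.2.trans_lt hx.2⟩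
    have hWint : ∫ t in x₀..x, (Real.exp (-(K * t / 2)))⁻¹ ≤ 2 / K * Real.exp (K * x / 2) := by
      have e1 : ∀ t, HasDerivAt (fun t => 2 / K * Real.exp (K * t / 2)) (Real.exp (-(K * t / 2)))⁻¹ t := by
        intro t
        rw [Real.exp_neg, inv_inv]
        have h1 : HasDerivAt (fun t : ℝ => K * t / 2) (K / 2) t := by
          have := ((hasDerivAt_id t).const_mul K).div_const 2
          simpa using this
        have h2 := (h1.exp).const_mul (2 / K)
        exact h2.congr_deriv (by field_simp)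
      rw [intervalIntegral.integral_eq_sub_of_hasDerivAt (fun t _ => e1 t)]
      · have : 0 < 2 / K * Real.exp (K * x₀ / 2) := by positivity
        linarith
      · apply Continuous.intervalIntegrable
        have : Continuous fun t : ℝ => Real.exp (-(K * t / 2)) := by fun_prop
        exact this.inv₀ fun t => (Real.exp_pos _).ne'
    have h1 := cs' (f := f) (f' := f') (w := fun t => Real.exp (-(K * t / 2))) hx.1.le
      (fun t ht => hd t (hsub ht)) (hc.mono hsub) (by fun_prop) (fun t _ => Real.exp_pos _) hWint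
    rw [ENNReal.ofReal_mul (Real.exp_pos _).le]
    have h2 : ENNReal.ofReal (Real.exp (-(K * x))) * ENNReal.ofReal ((f x - f x₀) ^ 2) ≤
        ENNReal.ofReal (Real.exp (-(K * x))) * (ENNReal.ofReal (2 / K * Real.exp (K * x / 2)) *
          ∫⁻ t in Ioc x₀ x, ENNReal.ofReal (f' t ^ 2 * Real.exp (-(K * t / 2)))) := by
      gcongr
    refine h2.trans (le_of_eq ?_)
    rw [← mul_assoc, ← ENNReal.ofReal_mul (Real.exp_pos _).le]
    have e2 : Real.exp (-(K * x)) * (2 / K * Real.exp (K * x / 2)) =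
        2 / K * Real.exp (-(K * x / 2)) := by
      have : Real.exp (-(K * x)) * Real.exp (K * x / 2) = Real.exp (-(K * x / 2)) := by
        rw [← Real.exp_add]; congr 1; ring
      rw [← this]; ring
    rw [e2]
    simp only [hF]
    rw [lintegral_const_mul]
    · congr 1
      rw [← lintegral_indicator measurableSet_Ioc]
      apply lintegral_congr
      intro t
      by_cases ht : t ∈ Ioc x₀ x
      · rw [indicator_of_mem ht, indicator_of_mem (show (x, t) ∈ S from ⟨ht.1, ht.2⟩), one_mul, hΦ,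
          indicator_of_mem (hsub (Ioc_subset_Icc_self ht))]
      · rw [indicator_of_notMem ht, indicator_of_notMem, zero_mul]
        intro hh; exact ht ⟨hh.1, hh.2⟩
    · exact ((measurable_const.indicator hSm).comp (measurable_prodMk_left)).mul hΦm
  calc ∫⁻ x in Ioo x₀ 1, ENNReal.ofReal (Real.exp (-(K * x)) * (f x - f x₀) ^ 2)
      ≤ ∫⁻ x in Ioo x₀ 1, ∫⁻ t, F x t := setLIntegral_mono' measurableSet_Ioo step1
    _ = ∫⁻ t, ∫⁻ x in Ioo x₀ 1, F x t := lintegral_lintegral_swap hFm.aemeasurable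
    _ ≤ ∫⁻ t, ENNReal.ofReal (4 / K ^ 2 * Real.exp (-(K * t / 2))) * Φ t := by
        apply lintegral_mono
        intro t
        simp only [hF]
        have : ∀ x, ENNReal.ofReal (2 / K * Real.exp (-(K * x / 2))) *
            (S.indicator (fun _ => (1 : ℝ≥0∞)) (x, t) * Φ t) ≤
            (Ici t).indicator (fun x => ENNReal.ofReal (2 / K * Real.exp (-(K * x / 2)))) x * Φ t := by
          intro x
          by_cases h : (x, t) ∈ S
          · rw [indicator_of_mem h, one_mul, indicator_of_mem (show x ∈ Ici t from h.2)]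
          · rw [indicator_of_notMem h]; simp
        refine (lintegral_mono (fun x => this x)).trans ?_
        rw [lintegral_mul_const]
        swap
        · apply Measurable.indicator _ measurableSet_Ici
          fun_prop
        gcongr
        refine (setLIntegral_le_lintegral _ _).trans ?_
        rw [lintegral_indicator measurableSet_Ici]
        have hint : IntegrableOn (fun x => 2 / K * Real.exp (-(K * x / 2))) (Ioi t) := by
          have := (integrableOn_exp_mul_Ioi (a := -(K / 2)) (by linarith) t).const_mul (2 / K)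
          refine Integrable.congr this (Filter.Eventually.of_forall fun x => ?_)
          simp only; congr 2; ring
        rw [setLIntegral_congr Ioi_ae_eq_Ici.symm, ← ofReal_integral_eq_lintegral_ofReal hint]
        · apply ENNReal.ofReal_le_ofReal
          rw [integral_const_mul]
          have e3 : ∫ x in Ioi t, Real.exp (-(K * x / 2)) = -Real.exp (-(K / 2) * t) / (-(K / 2)) := by
            rw [← integral_exp_mul_Ioi (a := -(K / 2)) (by linarith) t]
            congr 1; ext x; congr 1; ring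
          rw [e3]
          have e4 : -(K / 2) * t = -(K * t / 2) := by ring
          rw [e4]
          apply le_of_eq
          field_simp
          ring
        · filter_upwards with x
          positivity
    _ = ENNReal.ofReal (4 / K ^ 2) *
        ∫⁻ t in Ioo 0 1, ENNReal.ofReal (Real.exp (-(K * t)) * f' t ^ 2) := by
        rw [← lintegral_const_mul', ← lintegral_indicator measurableSet_Ioo]
        · apply lintegral_congr
          intro t
          by_cases ht : t ∈ Ioo (0 : ℝ) 1
          · rw [indicator_of_mem ht, hΦ, indicator_of_mem ht, ← ENNReal.ofReal_mul (by positivity),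
              ← ENNReal.ofReal_mul (by positivity)]
            congr 1
            have : Real.exp (-(K * t)) = Real.exp (-(K * t / 2)) * Real.exp (-(K * t / 2)) := by
              rw [← Real.exp_add]; congr 1; ring
            rw [this]; ring
          · rw [indicator_of_notMem ht, hΦ, indicator_of_notMem ht, mul_zero]
        · exact ENNReal.ofReal_ne_top

/-- The part to the left of the anchor `1 / K`. -/
lemma left {f f' : ℝ → ℝ} {K : ℝ} (hK : 1 < K)
    (hd : ∀ t ∈ Ioo (0 : ℝ) 1, HasDerivAt f (f' t) t) (hc : ContinuousOn f' (Ioo 0 1)) :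
    ∫⁻ x in Ioc 0 (1 / K), ENNReal.ofReal (Real.exp (-(K * x)) * (f x - f (1 / K)) ^ 2) ≤
      ENNReal.ofReal (3 / K ^ 2) *
        ∫⁻ t in Ioo 0 1, ENNReal.ofReal (Real.exp (-(K * t)) * f' t ^ 2) := by
  have hK0 : 0 < K := by linarith
  have hx1 : 1 / K < 1 := by rw [div_lt_one hK0]; exact hK
  set A := ∫⁻ t in Ioo 0 1, ENNReal.ofReal (Real.exp (-(K * t)) * f' t ^ 2) with hA
  have step : ∀ x ∈ Ioc 0 (1 / K),
      ENNReal.ofReal (Real.exp (-(K * x)) * (f x - f (1 / K)) ^ 2) ≤ ENNReal.ofReal (3 / K) * A := by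
    intro x hx
    have hsub : Icc x (1 / K) ⊆ Ioo (0 : ℝ) 1 := fun t ht => ⟨hx.1.trans_le ht.1, ht.2.trans_lt hx1⟩
    have hWint : ∫ t in x..(1 / K), (Real.exp (-(K * t)))⁻¹ ≤ 3 / K := by
      have h1 : ∫ t in x..(1 / K), (Real.exp (-(K * t)))⁻¹ ≤ ∫ t in x..(1 / K), (3 : ℝ) := by
        apply intervalIntegral.integral_mono_on hx.2
        · apply Continuous.intervalIntegrable
          have : Continuous fun t : ℝ => Real.exp (-(K * t)) := by fun_prop
          exact this.inv₀ fun t => (Real.exp_pos _).ne'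
        · simp
        · intro t ht
          rw [Real.exp_neg, inv_inv]
          have h2 : K * t ≤ 1 := by
            have := mul_le_mul_of_nonneg_left ht.2 hK0.le
            rwa [mul_one_div_cancel hK0.ne'] at this
          have h3 := Real.exp_one_lt_d9
          have h4 := Real.exp_le_exp.2 h2
          linarith
      rw [intervalIntegral.integral_const, smul_eq_mul] at h1
      have : (1 / K - x) * 3 ≤ 3 / K := by
        have := hx.1
        have e : (3 : ℝ) / K = 1 / K * 3 := by ring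
        rw [e]; nlinarith
      linarith
    have h1 := cs' (f := f) (f' := f') (w := fun t => Real.exp (-(K * t))) hx.2
      (fun t ht => hd t (hsub ht)) (hc.mono hsub) (by fun_prop) (fun t _ => Real.exp_pos _) hWint
    have h2 : ENNReal.ofReal (Real.exp (-(K * x)) * (f x - f (1 / K)) ^ 2) ≤
        ENNReal.ofReal ((f (1 / K) - f x) ^ 2) := by
      apply ENNReal.ofReal_le_ofReal
      have e1 : Real.exp (-(K * x)) ≤ 1 := by
        rw [Real.exp_le_one_iff]; have := mul_pos hK0 hx.1; linarith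
      nlinarith [sq_nonneg (f x - f (1 / K))]
    refine h2.trans (h1.trans ?_)
    gcongr
    rw [hA]
    refine le_trans (le_of_eq ?_) (lintegral_mono_set (Ioc_subset_Icc_self.trans hsub))
    apply lintegral_congr
    intro t
    rw [mul_comm]
  calc ∫⁻ x in Ioc 0 (1 / K), ENNReal.ofReal (Real.exp (-(K * x)) * (f x - f (1 / K)) ^ 2)
      ≤ ∫⁻ x in Ioc 0 (1 / K), ENNReal.ofReal (3 / K) * A := setLIntegral_mono' measurableSet_Ioc step
    _ = ENNReal.ofReal (3 / K ^ 2) * A := by
        rw [setLIntegral_const, Real.volume_Ioc, mul_comm, ← mul_assoc, ← ENNReal.ofReal_mul]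
        · congr 2; rw [sub_zero]; field_simp
        · rw [sub_zero]; positivity

lemma anchor {f f' : ℝ → ℝ} {K : ℝ} (hK : 1 < K)
    (hd : ∀ t ∈ Ioo (0 : ℝ) 1, HasDerivAt f (f' t) t) (hc : ContinuousOn f' (Ioo 0 1)) :
    ∫⁻ x in Ioo 0 1, ENNReal.ofReal (Real.exp (-(K * x)) * (f x - f (1 / K)) ^ 2) ≤
      ENNReal.ofReal (7 / K ^ 2) *
        ∫⁻ t in Ioo 0 1, ENNReal.ofReal (Real.exp (-(K * t)) * f' t ^ 2) := by
  have hK0 : 0 < K := by linarith
  have hx1 : 1 / K < 1 := by rw [div_lt_one hK0]; exact hK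
  have hx0 : 0 < 1 / K := by positivity
  have e : Ioo (0 : ℝ) 1 = Ioc 0 (1 / K) ∪ Ioo (1 / K) 1 :=
    (Ioc_union_Ioo_eq_Ioo hx0.le hx1).symm
  have h1 := left hK hd hc
  have h2 := right hK0 hx0 hd hc
  have h3 : ENNReal.ofReal (7 / K ^ 2) = ENNReal.ofReal (3 / K ^ 2) + ENNReal.ofReal (4 / K ^ 2) := by
    rw [← ENNReal.ofReal_add (by positivity) (by positivity)]; congr 1; ring
  rw [h3, add_mul]
  refine le_trans ?_ (add_le_add h1 h2)
  conv_lhs => rw [e]
  exact lintegral_union_le _ _ _

lemma cross {f f' : ℝ → ℝ} (hd : ∀ t ∈ Ioo (-1 : ℝ) 1, HasDerivAt f (f' t) t)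
    (hc : ContinuousOn f' (Ioo (-1) 1)) {s s' : ℝ} (hs : s ∈ Ioo (-1 : ℝ) 1)
    (hs' : s' ∈ Ioo (-1 : ℝ) 1) :
    ENNReal.ofReal ((f s - f s') ^ 2) ≤
      ENNReal.ofReal 2 * ∫⁻ t in Ioo (-1) 1, ENNReal.ofReal (f' t ^ 2) := by
  have key : ∀ s s' : ℝ, s ∈ Ioo (-1 : ℝ) 1 → s' ∈ Ioo (-1 : ℝ) 1 → s' ≤ s →
      ENNReal.ofReal ((f s - f s') ^ 2) ≤
      ENNReal.ofReal 2 * ∫⁻ t in Ioo (-1) 1, ENNReal.ofReal (f' t ^ 2) := by
    intro s s' hs hs' h
    have hsub : Icc s' s ⊆ Ioo (-1 : ℝ) 1 := fun t ht => ⟨hs'.1.trans_le ht.1, ht.2.trans_lt hs.2⟩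
    have h1 := cs' (f := f) (f' := f') (w := fun t => (1 : ℝ)) (W := 2) h
      (fun t ht => hd t (hsub ht)) (hc.mono hsub) (by fun_prop) (fun t _ => zero_lt_one)
      (by simp; linarith [hs.2, hs'.1])
    refine h1.trans (mul_le_mul' le_rfl ?_)
    refine le_trans (le_of_eq ?_) (lintegral_mono_set (Ioc_subset_Icc_self.trans hsub))
    apply lintegral_congr
    intro t
    rw [mul_one]
  rcases le_total s' s with h | h
  · exact key s s' hs hs' h
  · have := key s' s hs' hs h
    rwa [show (f s - f s') ^ 2 = (f s' - f s) ^ 2 by ring]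

end Pool.Agent.X153.NE
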