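import Pool.Agent.X153.NE.Lip
import Pool.Agent.X153.NE.OneD

/-! The Poincare inequality on the horns. -/

set_option autoImplicit false

open Set MeasureTheory
open scoped ENNReal

namespace Pool.Agent.X153.NE

/-- The square of the Euclidean norm of the gradient. -/
noncomputable def gradSq (u : ℝ × ℝ → ℝ) (p : ℝ × ℝ) : ℝ :=
  (fderiv ℝ u p (1, 0)) ^ 2 + (fderiv ℝ u p (0, 1)) ^ 2

/-- Half the width of the horn. -/
noncomputable def hw (K c x : ℝ) : ℝ := c * Real.exp (-(K * x))

lemma hw_pos {K c : ℝ} (hc : 0 < c) (x : ℝ) : 0 < hw K c x := by unfold hw; positivity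

lemma hw_le {K c : ℝ} (hK : 0 ≤ K) (hc : 0 < c) {x : ℝ} (hx : 0 ≤ x) : hw K c x ≤ c := by
  unfold hw
  have : Real.exp (-(K * x)) ≤ 1 := by
    rw [Real.exp_le_one_iff]; have := mul_nonneg hK hx; linarith
  nlinarith

lemma hw_cont (K c : ℝ) : Continuous (hw K c) := by unfold hw; fun_prop

lemma hw_deriv (K c x : ℝ) : HasDerivAt (hw K c) (-K * hw K c x) x := by
  unfold hw
  have h1 : HasDerivAt (fun x : ℝ => -(K * x)) (-K) x :=
    ((hasDerivAt_id' x).const_mul K).neg.congr_deriv (by ring)
  exact ((h1.exp).const_mul c).congr_deriv (by ring)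

lemma mem_horn {K c x s : ℝ} (hc : 0 < c) (hx : x ∈ Ioo (0 : ℝ) 1) (hs : s ∈ Ioo (-1 : ℝ) 1) :
    (x, hw K c x * s) ∈ horn K c := by
  refine ⟨hx.1, hx.2, ?_⟩
  have hp := hw_pos (K := K) hc x
  change |hw K c x * s| < hw K c x
  rw [abs_mul, abs_of_pos hp]
  have : |s| < 1 := abs_lt.2 ⟨hs.1, hs.2⟩
  nlinarith

lemma fubini {K c : ℝ} (hc : 0 < c) {F : ℝ × ℝ → ℝ≥0∞} (hF : Measurable ((horn K c).indicator F)) :
    ∫⁻ p in horn K c, F p = ∫⁻ x in Ioo (0 : ℝ) 1, ∫⁻ s in Ioo (-1 : ℝ) 1,
      ENNReal.ofReal (hw K c x) * F (x, hw K c x * s) := by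
  rw [← lintegral_indicator (horn_open K c).measurableSet, Measure.volume_eq_prod,
    lintegral_prod _ hF.aemeasurable, ← lintegral_indicator measurableSet_Ioo]
  apply lintegral_congr
  intro x
  by_cases hx : x ∈ Ioo (0 : ℝ) 1
  · rw [indicator_of_mem hx]
    have hp := hw_pos (K := K) hc x
    have e1 : ∫⁻ y, (horn K c).indicator F (x, y) =
        ∫⁻ y in (fun s => hw K c x * s) '' Ioo (-1) 1, F (x, y) := by
      have him : (fun s => hw K c x * s) '' Ioo (-1) 1 = Ioo (-hw K c x) (hw K c x) := by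
        rw [Set.image_mul_left_Ioo hp]; simp
      rw [him, ← lintegral_indicator measurableSet_Ioo]
      apply lintegral_congr
      intro y
      by_cases hy : y ∈ Ioo (-hw K c x) (hw K c x)
      · rw [indicator_of_mem hy, indicator_of_mem]
        exact ⟨hx.1, hx.2, abs_lt.2 ⟨hy.1, hy.2⟩⟩
      · rw [indicator_of_notMem hy, indicator_of_notMem]
        intro hh
        have := hh.2.2
        rw [abs_lt] at this
        exact hy ⟨this.1, this.2⟩
    rw [e1, lintegral_image_eq_lintegral_abs_deriv_mul (f' := fun _ => hw K c x) measurableSet_Ioo]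
    · rw [abs_of_pos hp]
    · intro s _
      simpa using ((hasDerivAt_id s).const_mul (hw K c x)).hasDerivWithinAt
    · intro a _ b _ hab
      exact mul_left_cancel₀ hp.ne' hab
  · rw [indicator_of_notMem hx]
    have : ∀ y, (horn K c).indicator F (x, y) = 0 := by
      intro y
      rw [indicator_of_notMem]
      intro hh; exact hx ⟨hh.1, hh.2.1⟩
    simp [this]

lemma meas_ind2 {g : ℝ × ℝ → ℝ≥0∞} {s : Set (ℝ × ℝ)} (hs : MeasurableSet s)
    (hg : ContinuousOn g s) : Measurable (s.indicator g) := by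
  classical
  rw [← piecewise_eq_indicator]
  exact hg.measurable_piecewise continuousOn_const hs

section

variable {K c : ℝ} {u : ℝ × ℝ → ℝ}

lemma hasF (hu : ContDiffOn ℝ 1 u (horn K c)) {p : ℝ × ℝ} (hp : p ∈ horn K c) :
    HasFDerivAt u (fderiv ℝ u p) p :=
  ((hu.differentiableOn (by norm_num)).differentiableAt
    ((horn_open K c).mem_nhds hp)).hasFDerivAt

lemma contF (hu : ContDiffOn ℝ 1 u (horn K c)) (v : ℝ × ℝ) :
    ContinuousOn (fun p => fderiv ℝ u p v) (horn K c) :=
  (hu.continuousOn_fderiv_of_isOpen (horn_open K c) le_rfl).clm_apply continuousOn_const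

lemma dx (hc : 0 < c) (hu : ContDiffOn ℝ 1 u (horn K c)) {x s : ℝ} (hx : x ∈ Ioo (0 : ℝ) 1)
    (hs : s ∈ Ioo (-1 : ℝ) 1) :
    HasDerivAt (fun x => u (x, hw K c x * s))
      (fderiv ℝ u (x, hw K c x * s) (1, 0) +
        (-K * hw K c x * s) * fderiv ℝ u (x, hw K c x * s) (0, 1)) x := by
  have h1 : HasDerivAt (fun x => (x, hw K c x * s)) ((1 : ℝ), -K * hw K c x * s) x :=
    (hasDerivAt_id x).prodMk ((hw_deriv K c x).mul_const s)
  have h2 := (hasF hu (mem_horn hc hx hs)).comp_hasDerivAt x h1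
  refine h2.congr_deriv ?_
  have : ((1 : ℝ), -K * hw K c x * s) = (1, 0) + (-K * hw K c x * s) • ((0 : ℝ), (1 : ℝ)) := by
    ext <;> simp
  rw [this, map_add, map_smul, smul_eq_mul]

lemma ds (hc : 0 < c) (hu : ContDiffOn ℝ 1 u (horn K c)) {x s : ℝ} (hx : x ∈ Ioo (0 : ℝ) 1)
    (hs : s ∈ Ioo (-1 : ℝ) 1) :
    HasDerivAt (fun s => u (x, hw K c x * s))
      (hw K c x * fderiv ℝ u (x, hw K c x * s) (0, 1)) s := by
  have h1 : HasDerivAt (fun s => (x, hw K c x * s)) ((0 : ℝ), hw K c x) s := by
    have := (hasDerivAt_const s x).prodMk ((hasDerivAt_id s).const_mul (hw K c x))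
    simpa using this
  have h2 := (hasF hu (mem_horn hc hx hs)).comp_hasDerivAt s h1
  refine h2.congr_deriv ?_
  have : ((0 : ℝ), hw K c x) = (hw K c x) • ((0 : ℝ), (1 : ℝ)) := by
    ext <;> simp
  rw [this, map_smul, smul_eq_mul]

theorem poincare' (hK : 1 < K) (hc : 0 < c) (hKc : K * c ≤ 1 / 2)
    (hu : ContDiffOn ℝ 1 u (horn K c)) (h2 : IntegrableOn (fun p => u p ^ 2) (horn K c))
    (h1 : IntegrableOn u (horn K c)) (hfin : volume (horn K c) ≠ ∞)
    (h0 : ∫ p in horn K c, u p = 0) :
    ∫⁻ p in horn K c, ENNReal.ofReal (u p ^ 2) ≤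
      ENNReal.ofReal (30 / K ^ 2) * ∫⁻ p in horn K c, ENNReal.ofReal (gradSq u p) := by
  have hK0 : 0 < K := by linarith
  set I := Ioo (0 : ℝ) 1 with hI
  set J := Ioo (-1 : ℝ) 1 with hJ
  set h := hw K c with hh
  have hx0 : 1 / K ∈ I := ⟨by positivity, by rw [div_lt_one hK0]; exact hK⟩
  have hucont : ContinuousOn u (horn K c) := hu.continuousOn
  have hcx := contF hu (1, 0)
  have hcy := contF hu (0, 1)
  have hcurvex : ∀ s ∈ J, ContinuousOn (fun x => (x, h x * s)) I ∧
      MapsTo (fun x => (x, h x * s)) I (horn K c) := fun s hs =>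
    ⟨by have := hw_cont K c; fun_prop, fun x hx => mem_horn hc hx hs⟩
  have hcurves : ∀ x ∈ I, ContinuousOn (fun s => (x, h x * s)) J ∧
      MapsTo (fun s => (x, h x * s)) J (horn K c) := fun x hx =>
    ⟨by fun_prop, fun s hs => mem_horn hc hx hs⟩
  have hgc : ContinuousOn (gradSq u) (horn K c) := (hcx.pow 2).add (hcy.pow 2)
  set G := ∫⁻ p in horn K c, ENNReal.ofReal (gradSq u p) with hG
  set M := ∫⁻ p in horn K c, ENNReal.ofReal (u p ^ 2) with hM
  have hGf : G = ∫⁻ x in I, ∫⁻ s in J, ENNReal.ofReal (h x) *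
      ENNReal.ofReal (gradSq u (x, h x * s)) :=
    fubini hc (meas_ind2 (horn_open K c).measurableSet
      (ENNReal.continuous_ofReal.comp_continuousOn hgc))
  set B : ℝ → ℝ≥0∞ := fun x => ∫⁻ r in J,
    ENNReal.ofReal ((h x * fderiv ℝ u (x, h x * r) (0, 1)) ^ 2) with hB
  set P := ∫⁻ x in I, ENNReal.ofReal (h x) * B x with hP
  have hPle : P ≤ ENNReal.ofReal (c ^ 2) * G := by
    rw [hP, hGf, ← lintegral_const_mul' _ _ ENNReal.ofReal_ne_top]
    apply setLIntegral_mono' measurableSet_Ioo
    intro x hx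
    rw [hB]
    simp only
    rw [← lintegral_const_mul' _ _ ENNReal.ofReal_ne_top, ← lintegral_const_mul' _ _
      ENNReal.ofReal_ne_top]
    apply lintegral_mono
    intro s
    have hp := hw_pos (K := K) hc x
    have hle := hw_le hK0.le hc hx.1.le
    have hsq : (hw K c x) ^ 2 ≤ c ^ 2 := by nlinarith
    simp only
    rw [← ENNReal.ofReal_mul hp.le, ← ENNReal.ofReal_mul hp.le, ← ENNReal.ofReal_mul (by positivity)]
    apply ENNReal.ofReal_le_ofReal
    have e : (h x * fderiv ℝ u (x, h x * s) (0, 1)) ^ 2 ≤ c ^ 2 * gradSq u (x, h x * s) := by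
      rw [mul_pow]
      unfold gradSq
      have h3 := sq_nonneg (fderiv ℝ u (x, h x * s) (1, 0))
      have h4 := sq_nonneg (fderiv ℝ u (x, h x * s) (0, 1))
      have h5 := mul_le_mul_of_nonneg_right hsq h4
      have h6 : 0 ≤ c ^ 2 * (fderiv ℝ u (x, h x * s) (1, 0)) ^ 2 := by positivity
      rw [mul_add]
      linarith
    calc h x * (h x * fderiv ℝ u (x, h x * s) (0, 1)) ^ 2
        ≤ h x * (c ^ 2 * gradSq u (x, h x * s)) := mul_le_mul_of_nonneg_left e hp.le
      _ = c ^ 2 * (h x * gradSq u (x, h x * s)) := by ring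
  set Q : ℝ → ℝ≥0∞ := fun s => ∫⁻ x in I, ENNReal.ofReal (h x) *
    ENNReal.ofReal (2 * gradSq u (x, h x * s)) with hQ
  have hQint : ∫⁻ s in J, Q s = ENNReal.ofReal 2 * G := by
    rw [hQ, hGf]
    simp only
    rw [lintegral_lintegral_swap, ← lintegral_const_mul' _ _ ENNReal.ofReal_ne_top]
    · apply lintegral_congr
      intro x
      rw [← lintegral_const_mul' _ _ ENNReal.ofReal_ne_top]
      apply lintegral_congr
      intro s
      rw [ENNReal.ofReal_mul (by norm_num)]
      ring
    · rw [Measure.prod_restrict]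
      refine AEMeasurable.mul (f := fun q : ℝ × ℝ => ENNReal.ofReal (h q.2))
        (g := fun q : ℝ × ℝ => ENNReal.ofReal (2 * gradSq u (q.2, h q.2 * q.1))) ?_ ?_
      · have := hw_cont K c
        exact (by fun_prop : Measurable fun q : ℝ × ℝ => ENNReal.ofReal (h q.2)).aemeasurable
      · apply ContinuousOn.aemeasurable _ (measurableSet_Ioo.prod measurableSet_Ioo)
        apply ENNReal.continuous_ofReal.comp_continuousOn
        apply continuousOn_const.mul
        apply hgc.comp
        · have := hw_cont K c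
          fun_prop
        · intro q hq
          exact mem_horn hc hq.2 hq.1
  have hmain : ∀ s' ∈ J, M ≤ ENNReal.ofReal 8 * P + ENNReal.ofReal (28 / K ^ 2) * Q s' := by
    intro s' hs'
    set k := u (1 / K, h (1 / K) * s') with hk
    have m1 : M ≤ ∫⁻ p in horn K c, ENNReal.ofReal ((u p - k) ^ 2) := by
      have i1 : IntegrableOn (fun p => (u p - k) ^ 2) (horn K c) := by
        have : (fun p => (u p - k) ^ 2) = fun p => u p ^ 2 - 2 * k * u p + k ^ 2 := by
          ext p; ring
        rw [this]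
        exact (h2.sub (h1.const_mul _)).add (integrableOn_const hfin)
      rw [hM, ← ofReal_integral_eq_lintegral_ofReal h2 (by filter_upwards with p; positivity),
        ← ofReal_integral_eq_lintegral_ofReal i1 (by filter_upwards with p; positivity)]
      apply ENNReal.ofReal_le_ofReal
      have e1 : ∫ p in horn K c, (u p - k) ^ 2 =
          (∫ p in horn K c, u p ^ 2) - 2 * k * (∫ p in horn K c, u p) +
            ∫ p in horn K c, k ^ 2 := by
        have : (fun p => (u p - k) ^ 2) = fun p => u p ^ 2 - 2 * k * u p + k ^ 2 := by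
          ext p; ring
        rw [this, integral_add (f := fun p => u p ^ 2 - 2 * k * u p) (g := fun _ => k ^ 2)
            (show Integrable (fun p => u p ^ 2 - 2 * k * u p) _ from h2.sub (h1.const_mul (2 * k)))
            (integrableOn_const hfin),
          integral_sub (f := fun p => u p ^ 2) (g := fun p => 2 * k * u p) h2 (h1.const_mul _),
          integral_const_mul]
      rw [e1, h0]
      have : 0 ≤ ∫ p in horn K c, k ^ 2 := integral_nonneg fun _ => sq_nonneg _
      linarith
    have m2 : ∫⁻ p in horn K c, ENNReal.ofReal ((u p - k) ^ 2) =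
        ∫⁻ x in I, ∫⁻ s in J, ENNReal.ofReal (h x) *
          ENNReal.ofReal ((u (x, h x * s) - k) ^ 2) :=
      fubini hc (meas_ind2 (horn_open K c).measurableSet
        (ENNReal.continuous_ofReal.comp_continuousOn ((hucont.sub continuousOn_const).pow 2)))
    have m3 : ∀ x ∈ I, ∫⁻ s in J, ENNReal.ofReal (h x) *
        ENNReal.ofReal ((u (x, h x * s) - k) ^ 2) ≤
        ENNReal.ofReal 8 * (ENNReal.ofReal (h x) * B x) +
          ENNReal.ofReal (4 * c) * ENNReal.ofReal (Real.exp (-(K * x)) *
            (u (x, h x * s') - k) ^ 2) := by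
      intro x hx
      have hp : 0 < h x := hw_pos hc x
      have hpt : ∀ s ∈ J, ENNReal.ofReal (h x) * ENNReal.ofReal ((u (x, h x * s) - k) ^ 2) ≤
          ENNReal.ofReal (h x) * (ENNReal.ofReal 4 * B x +
            ENNReal.ofReal (2 * (u (x, h x * s') - k) ^ 2)) := by
        intro s hs
        refine mul_le_mul' le_rfl ?_
        have hcr := cross (f := fun s => u (x, h x * s))
          (f' := fun s => h x * fderiv ℝ u (x, h x * s) (0, 1))
          (fun t ht => ds hc hu hx ht)
          (continuousOn_const.mul (hcy.comp (hcurves x hx).1 (hcurves x hx).2)) hs hs'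
        have e1 : ENNReal.ofReal ((u (x, h x * s) - k) ^ 2) ≤
            ENNReal.ofReal (2 * (u (x, h x * s) - u (x, h x * s')) ^ 2) +
            ENNReal.ofReal (2 * (u (x, h x * s') - k) ^ 2) := by
          rw [← ENNReal.ofReal_add (by positivity) (by positivity)]
          apply ENNReal.ofReal_le_ofReal
          nlinarith [sq_nonneg (u (x, h x * s) - u (x, h x * s') - (u (x, h x * s') - k))]
        refine e1.trans (add_le_add ?_ le_rfl)
        rw [ENNReal.ofReal_mul (by norm_num)]
        calc ENNReal.ofReal 2 * ENNReal.ofReal ((u (x, h x * s) - u (x, h x * s')) ^ 2)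
            ≤ ENNReal.ofReal 2 * (ENNReal.ofReal 2 * B x) := mul_le_mul' le_rfl hcr
          _ = ENNReal.ofReal 4 * B x := by
              rw [← mul_assoc, ← ENNReal.ofReal_mul (by norm_num)]; norm_num
      refine (setLIntegral_mono' measurableSet_Ioo hpt).trans (le_of_eq ?_)
      rw [setLIntegral_const, Real.volume_Ioo]
      have e2 : (1 : ℝ) - -1 = 2 := by norm_num
      rw [e2, mul_add, add_mul]
      congr 1
      · have : ENNReal.ofReal 8 = ENNReal.ofReal 4 * ENNReal.ofReal 2 := by
          rw [← ENNReal.ofReal_mul (by norm_num)]; norm_num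
        rw [this]; ring
      · rw [← ENNReal.ofReal_mul hp.le, ← ENNReal.ofReal_mul (by positivity),
          ← ENNReal.ofReal_mul (by positivity)]
        congr 1
        have : h x = c * Real.exp (-(K * x)) := rfl
        rw [this]; ring
    have m4 := anchor (f := fun x => u (x, h x * s'))
      (f' := fun x => fderiv ℝ u (x, h x * s') (1, 0) +
        (-K * h x * s') * fderiv ℝ u (x, h x * s') (0, 1)) hK
      (fun t ht => dx hc hu ht hs')
      (by
        have c1 := hcx.comp (hcurvex s' hs').1 (hcurvex s' hs').2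
        have c2 := hcy.comp (hcurvex s' hs').1 (hcurvex s' hs').2
        have c3 := hw_cont K c
        exact c1.add (ContinuousOn.mul (by fun_prop) c2))
    have m5 : ENNReal.ofReal (4 * c) * (ENNReal.ofReal (7 / K ^ 2) *
        ∫⁻ t in I, ENNReal.ofReal (Real.exp (-(K * t)) *
          (fderiv ℝ u (t, h t * s') (1, 0) +
            (-K * h t * s') * fderiv ℝ u (t, h t * s') (0, 1)) ^ 2)) ≤
        ENNReal.ofReal (28 / K ^ 2) * Q s' := by
      have e1 : ENNReal.ofReal (4 * c) * (ENNReal.ofReal (7 / K ^ 2) *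
        ∫⁻ t in I, ENNReal.ofReal (Real.exp (-(K * t)) *
          (fderiv ℝ u (t, h t * s') (1, 0) +
            (-K * h t * s') * fderiv ℝ u (t, h t * s') (0, 1)) ^ 2)) =
          ENNReal.ofReal (28 / K ^ 2) * (ENNReal.ofReal c *
        ∫⁻ t in I, ENNReal.ofReal (Real.exp (-(K * t)) *
          (fderiv ℝ u (t, h t * s') (1, 0) +
            (-K * h t * s') * fderiv ℝ u (t, h t * s') (0, 1)) ^ 2)) := by
        rw [← mul_assoc, ← mul_assoc, ← ENNReal.ofReal_mul (by positivity),
          ← ENNReal.ofReal_mul (by positivity)]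
        congr 2; ring
      rw [e1]
      refine mul_le_mul' le_rfl ?_
      rw [← lintegral_const_mul' _ _ ENNReal.ofReal_ne_top]
      apply setLIntegral_mono' measurableSet_Ioo
      intro t ht
      have hp : 0 < h t := hw_pos hc t
      have hle : h t ≤ c := hw_le hK0.le hc ht.1.le
      rw [← ENNReal.ofReal_mul hc.le, ← ENNReal.ofReal_mul hp.le]
      apply ENNReal.ofReal_le_ofReal
      have e2 : c * (Real.exp (-(K * t)) * (fderiv ℝ u (t, h t * s') (1, 0) +
            (-K * h t * s') * fderiv ℝ u (t, h t * s') (0, 1)) ^ 2) =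
          h t * (fderiv ℝ u (t, h t * s') (1, 0) +
            (-K * h t * s') * fderiv ℝ u (t, h t * s') (0, 1)) ^ 2 := by
        have : h t = c * Real.exp (-(K * t)) := rfl
        rw [this]; ring
      rw [e2]
      apply mul_le_mul_of_nonneg_left _ hp.le
      unfold gradSq
      set a := fderiv ℝ u (t, h t * s') (1, 0)
      set b := fderiv ℝ u (t, h t * s') (0, 1)
      have hβ : (-K * h t * s') ^ 2 ≤ 1 := by
        have hs1 : s' ^ 2 ≤ 1 := by nlinarith [hs'.1, hs'.2]
        have hk1 : (K * h t) ^ 2 ≤ 1 := by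
          have h5 : K * h t ≤ K * c := mul_le_mul_of_nonneg_left hle hK0.le
          have h6 : 0 ≤ K * h t := by positivity
          nlinarith
        have : (-K * h t * s') ^ 2 = (K * h t) ^ 2 * s' ^ 2 := by ring
        rw [this]
        nlinarith [sq_nonneg (K * h t), sq_nonneg s']
      set β := -K * h t * s'
      nlinarith [sq_nonneg (a - β * b), mul_le_mul_of_nonneg_right hβ (sq_nonneg b), sq_nonneg b]
    calc M ≤ ∫⁻ p in horn K c, ENNReal.ofReal ((u p - k) ^ 2) := m1
      _ = ∫⁻ x in I, ∫⁻ s in J, ENNReal.ofReal (h x) *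
          ENNReal.ofReal ((u (x, h x * s) - k) ^ 2) := m2
      _ ≤ ∫⁻ x in I, (ENNReal.ofReal 8 * (ENNReal.ofReal (h x) * B x) +
          ENNReal.ofReal (4 * c) * ENNReal.ofReal (Real.exp (-(K * x)) *
            (u (x, h x * s') - k) ^ 2)) := setLIntegral_mono' measurableSet_Ioo m3
      _ = ENNReal.ofReal 8 * P + ENNReal.ofReal (4 * c) * ∫⁻ x in I,
          ENNReal.ofReal (Real.exp (-(K * x)) * (u (x, h x * s') - k) ^ 2) := by
          rw [lintegral_add_right', lintegral_const_mul' _ _ ENNReal.ofReal_ne_top,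
            lintegral_const_mul' _ _ ENNReal.ofReal_ne_top]
          apply AEMeasurable.const_mul
          apply ContinuousOn.aemeasurable _ measurableSet_Ioo
          apply ENNReal.continuous_ofReal.comp_continuousOn
          apply ContinuousOn.mul (by fun_prop)
          exact ((hucont.comp (hcurvex s' hs').1 (hcurvex s' hs').2).sub continuousOn_const).pow 2
      _ ≤ ENNReal.ofReal 8 * P + ENNReal.ofReal (28 / K ^ 2) * Q s' :=
          add_le_add le_rfl ((mul_le_mul' le_rfl m4).trans m5)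
  have hfinal : ENNReal.ofReal 2 * M ≤ ENNReal.ofReal 2 * (ENNReal.ofReal (30 / K ^ 2) * G) := by
    calc ENNReal.ofReal 2 * M = ∫⁻ s' in J, M := by
          rw [setLIntegral_const, Real.volume_Ioo, mul_comm]; norm_num
      _ ≤ ∫⁻ s' in J, (ENNReal.ofReal 8 * P + ENNReal.ofReal (28 / K ^ 2) * Q s') :=
          setLIntegral_mono' measurableSet_Ioo hmain
      _ = ENNReal.ofReal 8 * P * ENNReal.ofReal 2 +
          ENNReal.ofReal (28 / K ^ 2) * (ENNReal.ofReal 2 * G) := by
          rw [lintegral_add_left measurable_const,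
            lintegral_const_mul' (ENNReal.ofReal (28 / K ^ 2)) Q ENNReal.ofReal_ne_top,
            hQint, setLIntegral_const, Real.volume_Ioo]
          norm_num
      _ ≤ ENNReal.ofReal 8 * (ENNReal.ofReal (c ^ 2) * G) * ENNReal.ofReal 2 +
          ENNReal.ofReal (28 / K ^ 2) * (ENNReal.ofReal 2 * G) := by gcongr
      _ = ENNReal.ofReal 2 * (ENNReal.ofReal (8 * c ^ 2 + 28 / K ^ 2) * G) := by
          rw [ENNReal.ofReal_add (by positivity) (by positivity), ENNReal.ofReal_mul (by norm_num)]
          ring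
      _ ≤ ENNReal.ofReal 2 * (ENNReal.ofReal (30 / K ^ 2) * G) := by
          refine mul_le_mul' le_rfl (mul_le_mul' ?_ le_rfl)
          apply ENNReal.ofReal_le_ofReal
          have h5 : c ≤ 1 / (2 * K) := by
            rw [le_div_iff₀ (by positivity)]; linarith
          have h6 : c ^ 2 ≤ (1 / (2 * K)) ^ 2 := by
            apply pow_le_pow_left₀ hc.le h5
          have h7 : (1 / (2 * K)) ^ 2 = 1 / 4 / K ^ 2 := by field_simp; norm_num
          rw [h7] at h6
          have h8 : 8 * (1 / 4 / K ^ 2) = 2 / K ^ 2 := by ring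
          have h9 : 2 / K ^ 2 + 28 / K ^ 2 = 30 / K ^ 2 := by ring
          linarith
  exact (ENNReal.mul_le_mul_iff_right (by simp) ENNReal.ofReal_ne_top).1 hfinal

end

end Pool.Agent.X153.NE
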